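import Pool.Agent.Helper38.D.Main

/-!
The degree bound for families of polynomials satisfying the polarised sphere identity.
-/

namespace Helper38.BallD

open MvPolynomial

variable {n N : ℕ}

/-- Substitution of two columns of a matrix. -/
noncomputable def cols {m : ℕ} (k : Fin m) : R2 (m + 1) →ₐ[ℂ]
    MvPolynomial (Fin (m + 1) × Fin (m + 1)) ℂ :=
  rename (Sum.elim (fun l => (l, 0)) (fun l => (l, k.succ)))

lemma cols_ne_zero {m : ℕ} (k : Fin m) {p : R2 (m + 1)} (hp : p ≠ 0) : cols k p ≠ 0 := by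
  have hinj : Function.Injective (Sum.elim (fun l => (l, 0)) (fun l => (l, k.succ)) :
      Fin (m + 1) ⊕ Fin (m + 1) → Fin (m + 1) × Fin (m + 1)) := by
    intro a b hab
    rcases a with a | a <;> rcases b with b | b <;> simp at hab
    · rw [hab]
    · exact absurd hab.2 (Fin.succ_ne_zero k).symm
    · rw [hab]
  intro h
  apply hp
  apply rename_injective _ hinj
  rw [map_zero]
  exact h

lemma eval_cols {m : ℕ} (k : Fin m) (g : Matrix (Fin (m + 1)) (Fin (m + 1)) ℂ) (p : R2 (m + 1)) :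
    eval (fun ij : Fin (m + 1) × Fin (m + 1) => g ij.1 ij.2) (cols k p)
      = eval (Sum.elim (fun l => g l 0) (fun l => g l k.succ)) p := by
  unfold cols
  rw [eval_rename]
  congr 2
  funext j
  rcases j with j | j <;> rfl

/-- A unitary frame in general position. -/
lemma exists_frame {m : ℕ} (i0 : Fin m) {D ρ T M : R2 (m + 1)} (hD : D ≠ 0) (hρ : ρ ≠ 0)
    (hT : T ≠ 0) (hM : M ≠ 0) :
    ∃ (ζ : Fin (m + 1) → ℂ) (ξ : Fin m → Fin (m + 1) → ℂ),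
      (∑ k, ζ k * starRingEnd ℂ (ζ k) = 1) ∧ (∀ i, ∑ k, ζ k * starRingEnd ℂ (ξ i k) = 0) ∧
      (∀ i, ∑ k, ξ i k * starRingEnd ℂ (ζ k) = 0) ∧
      (∀ i j, ∑ k, ξ i k * starRingEnd ℂ (ξ j k) = if i = j then 1 else 0) ∧
      (∀ k, eval (Sum.elim ζ (ξ k)) D ≠ 0) ∧ eval (Sum.elim ζ (ξ i0)) ρ ≠ 0 ∧
      eval (Sum.elim ζ (ξ i0)) T ≠ 0 ∧ eval (Sum.elim ζ (ξ i0)) M ≠ 0 := by
  classical
  obtain ⟨g, hg, hgF⟩ : ∃ g ∈ Matrix.unitaryGroup (Fin (m + 1)) ℂ,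
      eval (fun ij : Fin (m + 1) × Fin (m + 1) => g ij.1 ij.2)
        ((∏ k : Fin m, cols k D) * cols i0 ρ * cols i0 T * cols i0 M) ≠ 0 := by
    by_contra hcon
    push Not at hcon
    refine absurd (eq_zero_of_unitary _ hcon) ?_
    refine mul_ne_zero (mul_ne_zero (mul_ne_zero ?_ (cols_ne_zero _ hρ)) (cols_ne_zero _ hT))
      (cols_ne_zero _ hM)
    exact Finset.prod_ne_zero_iff.2 fun k _ => cols_ne_zero _ hD
  rw [map_mul, map_mul, map_mul, map_prod] at hgF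
  simp only [eval_cols] at hgF
  have horth : ∀ i j, ∑ l, g l i * starRingEnd ℂ (g l j) = if i = j then 1 else 0 := by
    intro i j
    have h1 := congrFun (congrFun ((Matrix.mem_unitaryGroup_iff').1 hg) j) i
    rw [Matrix.mul_apply, Matrix.one_apply] at h1
    have h2 : (if j = i then (1 : ℂ) else 0) = if i = j then 1 else 0 := by
      by_cases h : i = j
      · rw [if_pos h, if_pos h.symm]
      · rw [if_neg h, if_neg (fun h' => h h'.symm)]
    rw [← h2, ← h1]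
    refine Finset.sum_congr rfl fun l _ => ?_
    rw [mul_comm]
    rfl
  refine ⟨fun l => g l 0, fun k l => g l k.succ, ?_, ?_, ?_, ?_, ?_, ?_, ?_, ?_⟩
  · rw [horth, if_pos rfl]
  · intro i
    rw [horth, if_neg (Fin.succ_ne_zero i).symm]
  · intro i
    rw [horth, if_neg (Fin.succ_ne_zero i)]
  · intro i j
    rw [horth]
    simp [Fin.succ_inj]
  · intro k
    have := left_ne_zero_of_mul (left_ne_zero_of_mul (left_ne_zero_of_mul hgF))
    exact Finset.prod_ne_zero_iff.1 this k (Finset.mem_univ k)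
  · exact right_ne_zero_of_mul (left_ne_zero_of_mul (left_ne_zero_of_mul hgF))
  · exact right_ne_zero_of_mul (left_ne_zero_of_mul hgF)
  · exact right_ne_zero_of_mul hgF

lemma form_of_hK {P : Fin (N + 1) → MvPolynomial (Fin n) ℂ}
    (hK : ∀ z ω : Fin n → ℂ, ∑ k, z k * ω k = 1 →
      ∑ c, sg N c * eval z (P c) * eval ω (map (starRingEnd ℂ) (P c)) = 0)
    (z w : Fin n → ℂ) (hzw : ∑ k, z k * starRingEnd ℂ (w k) = 1) :
    form (fun c => eval z (P c)) (fun c => eval w (P c)) = 0 := by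
  have h4 := hK z (fun k => starRingEnd ℂ (w k)) hzw
  unfold form
  rw [← h4]
  refine Finset.sum_congr rfl fun c _ => ?_
  congr 1
  rw [eval_map]
  have h12 := eval₂_comp_left (starRingEnd ℂ) (RingHom.id ℂ) w (P c)
  rw [RingHom.comp_id] at h12
  exact h12

lemma vec_zero (P : Fin (N + 1) → MvPolynomial (Fin n) ℂ) (ζ w : Fin n → ℂ) :
    vec P 0 ζ w = fun c => eval ζ (P c) := by
  funext c
  exact eval_G_zero (P c) ζ w

lemma Sp_orth {P : Fin (N + 1) → MvPolynomial (Fin n) ℂ} {d : ℕ}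
    (hP : ∀ c, (P c).totalDegree ≤ d)
    (hform : ∀ z w : Fin n → ℂ, ∑ k, z k * starRingEnd ℂ (w k) = 1 →
      form (fun c => eval z (P c)) (fun c => eval w (P c)) = 0)
    {ζ ξ η : Fin n → ℂ} (h1 : ∑ k, ζ k * starRingEnd ℂ (ζ k) = 1)
    (h2 : ∑ k, ζ k * starRingEnd ℂ (η k) = 0)
    (h2' : ∑ k, ξ k * starRingEnd ℂ (ζ k) = 0)
    (h3 : ∑ k, ξ k * starRingEnd ℂ (η k) = 0) :
    ∀ u ∈ Sp P d ζ ξ, ∀ v ∈ Sp P d ζ η, form u v = 0 := by
  intro u hu
  apply Sp_perp' hP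
  intro t
  revert u
  apply Sp_perp hP
  intro s
  apply hform
  have : ∑ k, (ζ k + s * ξ k) * starRingEnd ℂ (ζ k + t * η k)
      = ∑ k, ζ k * starRingEnd ℂ (ζ k) + s * ∑ k, ξ k * starRingEnd ℂ (ζ k)
        + starRingEnd ℂ t * ∑ k, ζ k * starRingEnd ℂ (η k)
        + s * starRingEnd ℂ t * ∑ k, ξ k * starRingEnd ℂ (η k) := by
    rw [Finset.mul_sum, Finset.mul_sum, Finset.mul_sum, ← Finset.sum_add_distrib,
      ← Finset.sum_add_distrib, ← Finset.sum_add_distrib]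
    exact Finset.sum_congr rfl fun k _ => by rw [map_add, map_mul]; ring
  rw [this, h1, h2', h2, h3]
  ring

lemma Sp_orth_e {P : Fin (N + 1) → MvPolynomial (Fin n) ℂ} {d : ℕ}
    (hP : ∀ c, (P c).totalDegree ≤ d)
    (hform : ∀ z w : Fin n → ℂ, ∑ k, z k * starRingEnd ℂ (w k) = 1 →
      form (fun c => eval z (P c)) (fun c => eval w (P c)) = 0)
    {ζ ξ : Fin n → ℂ} (h1 : ∑ k, ζ k * starRingEnd ℂ (ζ k) = 1)
    (h2' : ∑ k, ξ k * starRingEnd ℂ (ζ k) = 0) :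
    ∀ u ∈ Sp P d ζ ξ, form u (fun c => eval ζ (P c)) = 0 := by
  apply Sp_perp hP
  intro s
  apply hform
  have : ∑ k, (ζ k + s * ξ k) * starRingEnd ℂ (ζ k)
      = ∑ k, ζ k * starRingEnd ℂ (ζ k) + s * ∑ k, ξ k * starRingEnd ℂ (ζ k) := by
    rw [Finset.mul_sum, ← Finset.sum_add_distrib]
    exact Finset.sum_congr rfl fun k _ => by ring
  rw [this, h1, h2']
  ring

lemma exists_rel {P : Fin (N + 1) → MvPolynomial (Fin n) ℂ} {d a : ℕ}
    (hP : ∀ c, (P c).totalDegree ≤ d) {ct : Fin (N + 1)} {ρ D : R2 n} {rel : ℕ → ℕ → R2 n}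
    (hρ : ∀ z ξ, eval (Sum.elim z ξ) ρ ≠ 0 →
      ∀ μ : ℂ, ∃ c, eval (fun k => z k + μ * ξ k) (P c) ≠ 0)
    (hmax : ∀ z ξ, Module.finrank ℂ (Sp P d z ξ) ≤ a)
    (hrels : ∀ (z ξ : Fin n → ℂ) (s : ℕ → ℂ),
      ∑ j ∈ Finset.range (d + 1), s j • vec P j z ξ = 0 →
        ∑ j ∈ Finset.range (d + 1), s j • (fun c => eval (Sum.elim z ξ) (shiftRel P d (rel j) c))
          = -(eval (Sum.elim z ξ) D) • ∑ j ∈ Finset.range (d + 1), s j • vec P (j + 1) z ξ)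
    {ζ ξ : Fin n → ℂ} (hD : eval (Sum.elim ζ ξ) D ≠ 0) (hρ' : eval (Sum.elim ζ ξ) ρ ≠ 0)
    (hGt : eval (Sum.elim ζ ξ) (G d (P ct)) ≠ 0) (he0 : vec P 0 ζ ξ ≠ 0) (had : a ≤ d) :
    ∃ j, j ≤ d ∧ ∀ κ : ℂ,
      (fun c => eval (Sum.elim ζ ξ) (shiftRel P d (rel j) c)) ≠ κ • vec P 0 ζ ξ := by
  have hdep : ¬ LinearIndependent ℂ (fun i : Fin (d + 1) => vec P i ζ ξ) := by
    intro hli
    have h4 := finrank_span_eq_card hli
    rw [Fintype.card_fin] at h4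
    have h5 := hmax ζ ξ
    have h6 : Module.finrank ℂ (Sp P d ζ ξ) = d + 1 := h4
    omega
  have htop0 : vec P (d + 1) ζ ξ = 0 := by
    funext c
    simp only [vec]
    rw [G_eq_zero (hP c) (Nat.lt_succ_self d), map_zero]
    rfl
  have hnz : ∀ μ : ℂ, ∑ i ∈ Finset.range (d + 1), μ ^ i • vec P i ζ ξ ≠ 0 := by
    intro μ h4
    obtain ⟨c, hc⟩ := hρ ζ ξ hρ' μ
    apply hc
    have h5 := congrFun (pt_expand hP ζ ξ μ) c
    rw [h4] at h5
    exact h5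
  have hd0 : vec P d ζ ξ ≠ 0 := fun h4 => hGt (congrFun h4 ct)
  obtain ⟨s, hs, hsn⟩ := exists_shift (fun i => vec P i ζ ξ) he0 htop0 hnz hd0 hdep
  by_contra hcon
  push Not at hcon
  apply hsn
  have h4 := hrels ζ ξ s hs
  have h5 : ∑ j ∈ Finset.range (d + 1),
      s j • (fun c => eval (Sum.elim ζ ξ) (shiftRel P d (rel j) c))
        ∈ Submodule.span ℂ {vec P 0 ζ ξ} := by
    refine Submodule.sum_mem _ fun j hj => Submodule.smul_mem _ _ ?_
    obtain ⟨κ, hκ⟩ := hcon j (Nat.lt_succ_iff.1 (Finset.mem_range.1 hj))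
    rw [hκ]
    exact Submodule.smul_mem _ _ (Submodule.mem_span_singleton_self _)
  rw [h4] at h5
  have h6 : -(eval (Sum.elim ζ ξ) D) ≠ 0 := neg_ne_zero.2 hD
  rw [Submodule.smul_mem_iff _ h6] at h5
  obtain ⟨κ, hκ⟩ := Submodule.mem_span_singleton.1 h5
  exact ⟨κ, hκ.symm⟩

theorem bound {m N : ℕ} (hm : 2 ≤ m) {P : Fin (N + 1) → MvPolynomial (Fin (m + 1)) ℂ} {d : ℕ}
    (hP : ∀ c, (P c).totalDegree ≤ d) (htop : ∃ c, (P c).totalDegree = d ∧ P c ≠ 0)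
    (hcop : ∀ g, (∀ c, g ∣ P c) → g.totalDegree = 0)
    (hK : ∀ z ω : Fin (m + 1) → ℂ, ∑ k, z k * ω k = 1 →
      ∑ c, sg N c * eval z (P c) * eval ω (map (starRingEnd ℂ) (P c)) = 0)
    (hnc : ∃ c c', G 0 (P c) * G 1 (P c') - G 0 (P c') * G 1 (P c) ≠ 0) :
    1 + m * d ≤ N ∨ 1 + m * (m + 1) ≤ N := by
  obtain ⟨ct, hct, hct0⟩ := htop
  obtain ⟨c, c', hcc⟩ := hnc
  obtain ⟨a, D, rel, hD0, hmax, hge, hrel, hrels⟩ := exists_minor hP
  obtain ⟨ρ, hρ0, hρ⟩ := exists_rho hct0 hcop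
  have hGt : G d (P ct) ≠ 0 := G_top hct hct0
  obtain ⟨ζ, ξ, h1, h2, h2', h3, hD, hρ', hGt', hmin⟩ :=
    exists_frame (⟨0, by omega⟩ : Fin m) hD0 hρ0 hGt hcc
  generalize (⟨0, by omega⟩ : Fin m) = i0 at hρ' hGt' hmin
  have hform := form_of_hK hK
  rw [map_sub, map_mul, map_mul] at hmin
  have he0 : vec P 0 ζ (ξ i0) ≠ 0 := by
    intro h0
    apply hmin
    have h4 : ∀ c, eval (Sum.elim ζ (ξ i0)) (G 0 (P c)) = 0 := fun c => congrFun h0 c
    rw [h4, h4, zero_mul, zero_mul, sub_zero]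
  have hprop : ∀ κ : ℂ, vec P 1 ζ (ξ i0) ≠ κ • vec P 0 ζ (ξ i0) := by
    intro κ h
    apply hmin
    have h4 : ∀ c, eval (Sum.elim ζ (ξ i0)) (G 1 (P c))
        = κ * eval (Sum.elim ζ (ξ i0)) (G 0 (P c)) := fun c => congrFun h c
    rw [h4, h4]
    ring
  have hnull : form (vec P 0 ζ (ξ i0)) (vec P 0 ζ (ξ i0)) = 0 := by
    rw [vec_zero]
    exact hform ζ ζ h1
  have ha1 : 1 ≤ a := by
    have h4 : (Submodule.span ℂ {vec P 0 ζ (ξ i0)}) ≤ Sp P d ζ (ξ i0) := by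
      rw [Submodule.span_singleton_le_iff_mem]
      exact vec_mem hP _ _ _
    have h5 := Submodule.finrank_mono h4
    rw [finrank_span_singleton he0] at h5
    exact h5.trans (hmax _ _)
  obtain ⟨a', rfl⟩ : ∃ a', a = a' + 1 := ⟨a - 1, by omega⟩
  have hcount : 1 + m * a' ≤ N := count he0 hnull (fun i => Sp P d ζ (ξ i))
    (fun i => by
      rw [vec_zero]
      exact Sp_orth_e hP hform h1 (h2' i))
    (fun i j hij => Sp_orth hP hform h1 (h2 j) (h2' i) (by rw [h3, if_neg hij]))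
    (fun i => hge _ _ (hD i))
  by_cases had : d ≤ a'
  · left
    have := Nat.mul_le_mul_left m had
    omega
  push Not at had
  right
  obtain ⟨j, hj, hju⟩ := exists_rel hP hρ hmax hrels (hD i0) hρ' hGt' he0 (by omega)
  obtain ⟨w, hw⟩ := rank_big hm hP hK h1 h2 h2' h3 hform i0 hprop he0
    (fun c => hrel j c hj) hju
  have h7 := hmax ζ w
  have h8 : m + 1 ≤ a' := by omega
  have := Nat.mul_le_mul_left m h8
  omega

end Helper38.BallD
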