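import Pool.Agent.Helper38.D.Line

/-!
A family of polynomials without common factor has no common zero on a generic line.
-/

namespace Helper38.BallD

open MvPolynomial

variable {n : ℕ}

/-- The line expansion in a fixed direction. -/
noncomputable def spec (ξ : Fin n → ℂ) : R2 n →ₐ[ℂ] MvPolynomial (Fin n) ℂ :=
  aeval (Sum.elim X (fun k => C (ξ k)))

lemma eval_spec (z ξ : Fin n → ℂ) (g : R2 n) : eval z (spec ξ g) = eval (Sum.elim z ξ) g := by
  have h : (eval z).comp (spec ξ).toRingHom = eval (Sum.elim z ξ) := by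
    apply ringHom_ext
    · intro a
      simp [spec]
    · intro i
      rcases i with i | i <;> simp [spec]
  exact congrArg (fun F => F g) h

/-- The substitution `z ↦ z + s t ξ`. -/
noncomputable def sh (ξ : Fin n → ℂ) (s : ℂ) :
    Polynomial (MvPolynomial (Fin n) ℂ) →+* Polynomial (MvPolynomial (Fin n) ℂ) :=
  Polynomial.eval₂RingHom (aeval (fun k => Polynomial.C (X k) +
    Polynomial.C (C (s * ξ k)) * Polynomial.X) :
      MvPolynomial (Fin n) ℂ →ₐ[ℂ] Polynomial (MvPolynomial (Fin n) ℂ)).toRingHom Polynomial.X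

lemma sh_X (ξ : Fin n → ℂ) (s : ℂ) : sh ξ s Polynomial.X = Polynomial.X := by
  simp [sh]

lemma sh_C (ξ : Fin n → ℂ) (s : ℂ) (p : MvPolynomial (Fin n) ℂ) : sh ξ s (Polynomial.C p)
    = aeval (fun k => Polynomial.C (X k) + Polynomial.C (C (s * ξ k)) * Polynomial.X) p := by
  simp [sh]

lemma sh_C_C (ξ : Fin n → ℂ) (s a : ℂ) : sh ξ s (Polynomial.C (C a)) = Polynomial.C (C a) := by
  rw [sh_C, aeval_C]
  rfl

lemma sh_C_X (ξ : Fin n → ℂ) (s : ℂ) (k : Fin n) : sh ξ s (Polynomial.C (X k))
    = Polynomial.C (X k) + Polynomial.C (C (s * ξ k)) * Polynomial.X := by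
  rw [sh_C, aeval_X]

lemma sh_inv (ξ : Fin n → ℂ) (s : ℂ) : (sh ξ s).comp (sh ξ (-s)) = RingHom.id _ := by
  apply Polynomial.ringHom_ext'
  · apply ringHom_ext
    · intro a
      simp only [RingHom.comp_apply, sh_C_C, RingHom.id_apply]
    · intro k
      simp only [RingHom.comp_apply, sh_C_X, map_add, map_mul, sh_C_C, sh_X, RingHom.id_apply]
      have h1 : (Polynomial.C (C s) : Polynomial (MvPolynomial (Fin n) ℂ)) +
          Polynomial.C (C (-s)) = 0 := by
        rw [← Polynomial.C_add, ← C_add]
        simp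
      linear_combination (Polynomial.C (C (ξ k)) * Polynomial.X) * h1
  · simp only [RingHom.comp_apply, sh_X, RingHom.id_apply]

lemma sh_uline (ξ : Fin n → ℂ) (p : MvPolynomial (Fin n) ℂ) :
    sh ξ (-1) ((uline p).map (spec ξ).toRingHom) = Polynomial.C p := by
  have h : ((sh ξ (-1)).comp (Polynomial.mapRingHom (spec ξ).toRingHom)).comp
      (aeval (fun k => Polynomial.C (X (Sum.inl k)) + Polynomial.C (X (Sum.inr k)) *
        Polynomial.X) : MvPolynomial (Fin n) ℂ →ₐ[ℂ] Polynomial (R2 n)).toRingHom
      = Polynomial.C := by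
    apply ringHom_ext
    · intro a
      change sh ξ (-1) (Polynomial.map _ (aeval _ (C a))) = _
      rw [aeval_C, Polynomial.algebraMap_apply, Polynomial.map_C]
      have h1 : (spec ξ).toRingHom (algebraMap ℂ (R2 n) a) = C a := aeval_C _ _
      rw [h1, sh_C_C]
    · intro k
      change sh ξ (-1) (Polynomial.map _ (aeval _ (X k))) = _
      rw [aeval_X, Polynomial.map_add, Polynomial.map_mul, Polynomial.map_C, Polynomial.map_C,
        Polynomial.map_X]
      have h1 : (spec ξ).toRingHom (X (Sum.inl k)) = X k := by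
        change spec ξ (X (Sum.inl k)) = X k
        simp [spec]
      have h2 : (spec ξ).toRingHom (X (Sum.inr k)) = C (ξ k) := by
        change spec ξ (X (Sum.inr k)) = C (ξ k)
        simp [spec]
      rw [h1, h2, map_add, map_mul, sh_C_X, sh_C_C, sh_X, add_assoc, ← add_mul, ← Polynomial.C_add,
        ← C_add]
      have : -1 * ξ k + ξ k = 0 := by ring
      rw [this]
      simp
  exact congrArg (fun F => F p) h

/-- A common divisor of the universal line expansions has degree `0`. -/
lemma common_divisor {ι : Type*} {P : ι → MvPolynomial (Fin n) ℂ} {c0 : ι} (hc0 : P c0 ≠ 0)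
    (hcop : ∀ g, (∀ c, g ∣ P c) → g.totalDegree = 0) {Γ : Polynomial (R2 n)}
    (hΓ : ∀ c, Γ ∣ uline (P c)) : Γ.natDegree = 0 := by
  by_contra hdeg
  have hΓ0 : Γ ≠ 0 := by
    rintro rfl
    simp at hdeg
  have hlead : Γ.leadingCoeff ≠ 0 := Polynomial.leadingCoeff_ne_zero.2 hΓ0
  obtain ⟨v, hv⟩ : ∃ v, eval v Γ.leadingCoeff ≠ 0 := by
    by_contra hcon
    push Not at hcon
    exact hlead (MvPolynomial.funext fun v => by rw [hcon, map_zero])
  set z : Fin n → ℂ := fun k => v (Sum.inl k)
  set ξ : Fin n → ℂ := fun k => v (Sum.inr k)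
  have hv' : v = Sum.elim z ξ := by
    funext k
    rcases k with k | k <;> rfl
  set Γ1 := Γ.map (spec ξ).toRingHom with hΓ1
  have h1 : Γ1.coeff Γ.natDegree ≠ 0 := by
    rw [hΓ1, Polynomial.coeff_map]
    intro h
    have h2 : eval z (spec ξ (Γ.coeff Γ.natDegree)) = 0 := by
      have : spec ξ (Γ.coeff Γ.natDegree) = 0 := h
      rw [this, map_zero]
    rw [eval_spec, ← hv'] at h2
    exact hv h2
  have h2 : ∀ c, sh ξ (-1) Γ1 ∣ Polynomial.C (P c) := by
    intro c
    rw [← sh_uline ξ (P c)]
    exact map_dvd _ (Polynomial.map_dvd _ (hΓ c))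
  have h3 : (sh ξ (-1) Γ1).natDegree = 0 := by
    have := Polynomial.natDegree_le_of_dvd (h2 c0) (by
      rw [Ne, Polynomial.C_eq_zero]
      exact hc0)
    rw [Polynomial.natDegree_C] at this
    omega
  obtain ⟨g, hg⟩ : ∃ g, sh ξ (-1) Γ1 = Polynomial.C g := ⟨_, Polynomial.eq_C_of_natDegree_eq_zero h3⟩
  have h4 : ∀ c, g ∣ P c := by
    intro c
    have h5 := h2 c
    rw [hg, Polynomial.C_dvd_iff_dvd_coeff] at h5
    have := h5 0
    rwa [Polynomial.coeff_C_zero] at this
  have h5 : g = C (coeff 0 g) := totalDegree_eq_zero_iff_eq_C.1 (hcop g h4)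
  have h6 : Γ1 = Polynomial.C (C (coeff 0 g)) := by
    have h7 := congrArg (fun F => F Γ1) (sh_inv ξ 1)
    simp only [RingHom.comp_apply, RingHom.id_apply] at h7
    rw [← h7, hg]
    conv_lhs => rw [h5]
    exact sh_C_C ξ 1 _
  rw [h6, Polynomial.coeff_C, if_neg hdeg] at h1
  exact h1 rfl

/-- Bezout identity up to a nonzero constant for families without common divisor of positive
degree. -/
theorem bezout {R K : Type*} [CommRing R] [IsDomain R] [NormalizedGCDMonoid R] [Field K]
    [Algebra R K] [IsFractionRing R K] {ι : Type*} [Fintype ι] {U : ι → Polynomial R} {c0 : ι}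
    (hc0 : U c0 ≠ 0) (hcop : ∀ Γ : Polynomial R, (∀ c, Γ ∣ U c) → Γ.natDegree = 0) :
    ∃ (A : ι → Polynomial R) (B : R), B ≠ 0 ∧ ∑ c, A c * U c = Polynomial.C B := by
  classical
  set V : ι → Polynomial K := fun c => (U c).map (algebraMap R K) with hV
  set J : Ideal (Polynomial K) := Ideal.span (Set.range V) with hJ
  have hinj : Function.Injective (algebraMap R K) := IsFractionRing.injective _ _
  -- the ideal is everything
  have hJtop : J = ⊤ := by
    by_contra hne
    obtain ⟨g, hg⟩ := (IsPrincipalIdealRing.principal J).principal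
    have hg' : J = Ideal.span {g} := hg
    have hgdvd : ∀ c, g ∣ V c := by
      intro c
      rw [← Ideal.mem_span_singleton, ← hg']
      exact Ideal.subset_span ⟨c, rfl⟩
    have hU0 : V c0 ≠ 0 := by
      rw [hV]
      simp only
      rwa [Polynomial.map_ne_zero_iff hinj]
    have hg0 : g ≠ 0 := by
      rintro rfl
      exact hU0 (zero_dvd_iff.1 (hgdvd c0))
    have hgu : ¬ IsUnit g := by
      intro h
      apply hne
      rw [hg']
      exact Ideal.span_singleton_eq_top.2 h
    set Γ := (IsLocalization.integerNormalization (nonZeroDivisors R) g).primPart with hΓ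
    have hΓp : Γ.IsPrimitive := Polynomial.isPrimitive_primPart _
    obtain ⟨b, hb, hbg⟩ := IsLocalization.integerNormalization_spec (nonZeroDivisors R) g
    have hb0 : b ≠ 0 := nonZeroDivisors.ne_zero hb
    have hmapdvd : Γ.map (algebraMap R K) ∣ g := by
      have h1 : Γ.map (algebraMap R K) ∣ b • g := by
        rw [← hbg]
        exact Polynomial.map_dvd _ (Polynomial.primPart_dvd _)
      rw [Algebra.smul_def, Polynomial.algebraMap_apply] at h1
      have h2 : IsUnit (Polynomial.C (algebraMap R K b)) := by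
        rw [Polynomial.isUnit_C]
        exact IsUnit.mk0 _ (fun h => hb0 (hinj (by rw [h, map_zero])))
      exact (h2.dvd_mul_left).1 h1
    have hΓdvd : ∀ c, Γ ∣ U c := fun c =>
      hΓp.dvd_of_fraction_map_dvd_fraction_map (K := K) (hmapdvd.trans (hgdvd c))
    have hdeg := hcop Γ hΓdvd
    have hΓu : IsUnit Γ := by
      rw [Polynomial.eq_C_of_natDegree_eq_zero hdeg] at hΓp ⊢
      rw [Polynomial.isUnit_C]
      exact hΓp _ dvd_rfl
    exact hgu (Polynomial.isUnit_or_eq_zero_of_isUnit_integerNormalization_primPart hg0 hΓu)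
  have h1 : (1 : Polynomial K) ∈ J := by rw [hJtop]; exact Submodule.mem_top
  obtain ⟨co, hco⟩ := (Ideal.mem_span_range_iff_exists_fun).1 h1
  -- clear denominators
  choose b hb hbg using fun c => IsLocalization.integerNormalization_spec
    (nonZeroDivisors R) (co c)
  set A : ι → Polynomial R := fun c =>
    IsLocalization.integerNormalization (nonZeroDivisors R) (co c) with hA
  set B : R := ∏ c, b c with hB
  have hB0 : B ≠ 0 := Finset.prod_ne_zero_iff.2 fun c _ => nonZeroDivisors.ne_zero (hb c)
  refine ⟨fun c => Polynomial.C (∏ c' ∈ Finset.univ.erase c, b c') * A c, B, hB0, ?_⟩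
  apply Polynomial.map_injective _ hinj
  rw [Polynomial.map_sum, Polynomial.map_C]
  have h2 : ∀ c, Polynomial.map (algebraMap R K)
      (Polynomial.C (∏ c' ∈ Finset.univ.erase c, b c') * A c * U c)
      = Polynomial.C (algebraMap R K B) * (co c * V c) := by
    intro c
    rw [Polynomial.map_mul, Polynomial.map_mul, Polynomial.map_C, hbg c, Algebra.smul_def,
      Polynomial.algebraMap_apply, hB, ← Finset.prod_erase_mul Finset.univ b (Finset.mem_univ c),
      map_mul, Polynomial.C_mul]
    simp only [hV]
    ring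
  rw [Finset.sum_congr rfl fun c _ => h2 c, ← Finset.mul_sum, hco, mul_one]

theorem exists_rho {ι : Type*} [Fintype ι] {P : ι → MvPolynomial (Fin n) ℂ} {c0 : ι}
    (hc0 : P c0 ≠ 0) (hcop : ∀ g, (∀ c, g ∣ P c) → g.totalDegree = 0) :
    ∃ ρ : R2 n, ρ ≠ 0 ∧ ∀ z ξ, eval (Sum.elim z ξ) ρ ≠ 0 →
      ∀ μ : ℂ, ∃ c, eval (fun k => z k + μ * ξ k) (P c) ≠ 0 := by
  classical
  let _ : NormalizedGCDMonoid (R2 n) := Nonempty.some inferInstance
  have hU0 : uline (P c0) ≠ 0 := by
    intro h
    apply hc0
    apply MvPolynomial.funext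
    intro z
    have h2 := line_eval (P c0) z 0 0
    unfold line at h2
    rw [h, Polynomial.map_zero, Polynomial.eval_zero] at h2
    rw [map_zero, h2]
    congr 2
    funext k
    simp
  obtain ⟨A, B, hB0, hsum⟩ := bezout (K := FractionRing (R2 n)) (U := fun c => uline (P c)) hU0
    (fun Γ hΓ => common_divisor hc0 hcop hΓ)
  refine ⟨B, hB0, fun z ξ hne μ => ?_⟩
  by_contra hcon
  push Not at hcon
  apply hne
  have h3 := congrArg (fun q => (q.map (eval (Sum.elim z ξ))).eval μ) hsum
  simp only [Polynomial.map_sum, Polynomial.eval_finsetSum, Polynomial.map_C,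
    Polynomial.eval_C] at h3
  rw [← h3]
  refine Finset.sum_eq_zero fun c _ => ?_
  rw [Polynomial.map_mul, Polynomial.eval_mul]
  have h4 : Polynomial.eval μ (Polynomial.map (eval (Sum.elim z ξ)) (uline (P c))) = 0 := by
    have := line_eval (P c) z ξ μ
    unfold line at this
    rw [this, hcon]
  rw [h4, mul_zero]

/-- The top coefficient of the universal line expansion is nonzero. -/
lemma G_top {p : MvPolynomial (Fin n) ℂ} {d : ℕ} (hp : p.totalDegree = d) (hp0 : p ≠ 0) :
    G d p ≠ 0 := by
  classical
  intro h0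
  -- specialise z = 0
  set th : R2 n →ₐ[ℂ] MvPolynomial (Fin n) ℂ := aeval (Sum.elim (fun _ => 0) X) with hth
  have huline : ∀ q : MvPolynomial (Fin n) ℂ, (uline q).map th.toRingHom
      = aeval (fun k => Polynomial.C (X k) * Polynomial.X :
          Fin n → Polynomial (MvPolynomial (Fin n) ℂ)) q := by
    intro q
    have h : (Polynomial.mapRingHom th.toRingHom).comp
      (aeval (fun k => Polynomial.C (X (Sum.inl k)) + Polynomial.C (X (Sum.inr k)) *
        Polynomial.X) : MvPolynomial (Fin n) ℂ →ₐ[ℂ] Polynomial (R2 n)).toRingHom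
      = (aeval (fun k => Polynomial.C (X k) * Polynomial.X :
          Fin n → Polynomial (MvPolynomial (Fin n) ℂ))).toRingHom := by
      apply ringHom_ext
      · intro a
        change Polynomial.map _ (aeval _ (C a)) = aeval _ (C a)
        rw [aeval_C, aeval_C, Polynomial.algebraMap_apply, Polynomial.map_C,
          Polynomial.algebraMap_apply]
        congr 1
        exact aeval_C _ _
      · intro k
        change Polynomial.map _ (aeval _ (X k)) = aeval _ (X k)
        rw [aeval_X, aeval_X, Polynomial.map_add, Polynomial.map_mul, Polynomial.map_C,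
          Polynomial.map_C, Polynomial.map_X]
        have h1 : th.toRingHom (X (Sum.inl k)) = 0 := by
          change th (X (Sum.inl k)) = 0
          simp [hth]
        have h2 : th.toRingHom (X (Sum.inr k)) = X k := by
          change th (X (Sum.inr k)) = X k
          simp [hth]
        rw [h1, h2, Polynomial.C_0, zero_add]
    exact congrArg (fun F => F q) h
  have key : ∀ (q : MvPolynomial (Fin n) ℂ) (m : Fin n →₀ ℕ), Finsupp.degree m = d →
      coeff m (th (G d q)) = coeff m q := by
    intro q m hm
    induction q using MvPolynomial.induction_on' with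
    | monomial u a =>
      have h1 : (uline (monomial u a)).map th.toRingHom
          = Polynomial.C (monomial u a) * Polynomial.X ^ (Finsupp.degree u) := by
        rw [huline, aeval_monomial, Polynomial.algebraMap_apply]
        rw [monomial_eq, Polynomial.C_mul]
        simp only [Finsupp.prod, mul_pow, Finset.prod_mul_distrib, Finset.prod_pow_eq_pow_sum]
        rw [map_prod, ← mul_assoc]
        simp only [Polynomial.C_pow]
        rfl
      have h2 : th (G d (monomial u a)) = ((uline (monomial u a)).map th.toRingHom).coeff d := by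
        rw [Polynomial.coeff_map]
        rfl
      rw [h2, h1, Polynomial.coeff_C_mul_X_pow]
      split_ifs with h3
      · rfl
      · rw [coeff_zero, coeff_monomial, if_neg]
        rintro rfl
        exact h3 hm.symm
    | add p q hp hq => rw [G_add, map_add, coeff_add, coeff_add, hp, hq]
  obtain ⟨m, hm, hmd⟩ : ∃ m ∈ p.support, Finsupp.degree m = d := by
    obtain ⟨m, hm, hm2⟩ := Finset.exists_mem_eq_sup p.support (support_nonempty.2 hp0)
      (fun s => s.sum fun _ e => e)
    refine ⟨m, hm, ?_⟩
    rw [← hp]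
    unfold totalDegree
    rw [hm2]
    rfl
  have := key p m hmd
  rw [h0, map_zero, coeff_zero] at this
  exact (mem_support_iff.1 hm) this.symm

end Helper38.BallD
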