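import Mathlib

/-!
Linear algebra of the Hermitian form of signature `(N, 1)`.
-/

namespace Helper38.BallD

/-- The signs. -/
noncomputable def sg (N : ℕ) : Fin (N + 1) → ℂ := Fin.cons (-1) (fun _ => 1)

/-- The Hermitian form of signature `(N, 1)`. -/
noncomputable def form {N : ℕ} (u v : Fin (N + 1) → ℂ) : ℂ :=
  ∑ c, sg N c * u c * starRingEnd ℂ (v c)

lemma form_eq {N : ℕ} (u v : Fin (N + 1) → ℂ) : form u v
    = (∑ j : Fin N, u j.succ * starRingEnd ℂ (v j.succ)) - u 0 * starRingEnd ℂ (v 0) := by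
  unfold form sg
  rw [Fin.sum_univ_succ]
  simp only [Fin.cons_zero, Fin.cons_succ]
  ring_nf

lemma form_add_left {N : ℕ} (u u' v : Fin (N + 1) → ℂ) : form (u + u') v = form u v + form u' v := by
  unfold form
  rw [← Finset.sum_add_distrib]
  exact Finset.sum_congr rfl fun c _ => by rw [Pi.add_apply]; ring

lemma form_smul_left {N : ℕ} (a : ℂ) (u v : Fin (N + 1) → ℂ) : form (a • u) v = a * form u v := by
  unfold form
  rw [Finset.mul_sum]
  exact Finset.sum_congr rfl fun c _ => by rw [Pi.smul_apply, smul_eq_mul]; ring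

lemma form_conj {N : ℕ} (u v : Fin (N + 1) → ℂ) : form v u = starRingEnd ℂ (form u v) := by
  rw [form_eq, form_eq, map_sub, map_sum, map_mul, Complex.conj_conj]
  congr 1
  · exact Finset.sum_congr rfl fun c _ => by rw [map_mul, Complex.conj_conj]; ring
  · ring

lemma form_add_right {N : ℕ} (u v v' : Fin (N + 1) → ℂ) :
    form u (v + v') = form u v + form u v' := by
  rw [form_conj (v + v') u, form_add_left, map_add, ← form_conj, ← form_conj]

lemma form_smul_right {N : ℕ} (a : ℂ) (u v : Fin (N + 1) → ℂ) :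
    form u (a • v) = starRingEnd ℂ a * form u v := by
  rw [form_conj (a • v) u, form_smul_left, map_mul, ← form_conj]

lemma form_zero_left {N : ℕ} (v : Fin (N + 1) → ℂ) : form 0 v = 0 := by
  simp [form]

/-- The vectors orthogonal to a given vector. -/
noncomputable def perp {N : ℕ} (v : Fin (N + 1) → ℂ) : Submodule ℂ (Fin (N + 1) → ℂ) where
  carrier := {u | form u v = 0}
  add_mem' := by
    intro a b ha hb
    simp only [Set.mem_ofPred_eq] at *
    rw [form_add_left, ha, hb, add_zero]
  zero_mem' := form_zero_left v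
  smul_mem' := by
    intro c a ha
    simp only [Set.mem_ofPred_eq] at *
    rw [form_smul_left, ha, mul_zero]

lemma mem_perp {N : ℕ} {u v : Fin (N + 1) → ℂ} : u ∈ perp v ↔ form u v = 0 := Iff.rfl

lemma null_zero_ne {N : ℕ} {e : Fin (N + 1) → ℂ} (he : e ≠ 0) (h : form e e = 0) : e 0 ≠ 0 := by
  intro h0
  rw [form_eq, h0, zero_mul, sub_zero] at h
  have h1 : ∑ j : Fin N, Complex.normSq (e j.succ) = 0 := by
    have : ((∑ j : Fin N, Complex.normSq (e j.succ) : ℝ) : ℂ) = 0 := by
      rw [Complex.ofReal_sum, ← h]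
      exact Finset.sum_congr rfl fun j _ => by rw [Complex.mul_conj]
    exact_mod_cast this
  have h2 := (Finset.sum_eq_zero_iff_of_nonneg (fun j _ => Complex.normSq_nonneg (e (Fin.succ j)))).1 h1
  apply he
  funext c
  refine Fin.cases h0 (fun j => ?_) c
  exact Complex.normSq_eq_zero.1 (h2 j (Finset.mem_univ j))

/-- Two orthogonal null vectors are proportional. -/
lemma null_prop {N : ℕ} {e u : Fin (N + 1) → ℂ} (he : e ≠ 0) (h : form e e = 0)
    (hu : form u e = 0) (huu : form u u = 0) : ∃ c : ℂ, u = c • e := by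
  have h0 := null_zero_ne he h
  refine ⟨u 0 / e 0, ?_⟩
  set c := u 0 / e 0 with hc
  have hv : form (u + (-c) • e) (u + (-c) • e) = 0 := by
    rw [form_add_left, form_add_right, form_add_right, form_smul_left, form_smul_left,
      form_smul_right, form_smul_right, h, hu, huu, form_conj u e, hu]
    simp
  by_contra hne
  have hne' : u + (-c) • e ≠ 0 := by
    intro h1
    apply hne
    rw [neg_smul, ← sub_eq_add_neg, sub_eq_zero] at h1
    exact h1
  apply null_zero_ne hne' hv
  simp only [Pi.add_apply, Pi.smul_apply, smul_eq_mul]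
  rw [hc]
  field_simp
  ring

/-- The projection to `ℂ^N` along `e`. -/
noncomputable def proj {N : ℕ} (e : Fin (N + 1) → ℂ) :
    (Fin (N + 1) → ℂ) →ₗ[ℂ] EuclideanSpace ℂ (Fin N) where
  toFun v := WithLp.toLp 2 fun j => v j.succ - v 0 / e 0 * e j.succ
  map_add' u v := by
    ext j
    simp
    ring
  map_smul' a v := by
    ext j
    simp
    ring

lemma proj_inner {N : ℕ} {e u v : Fin (N + 1) → ℂ} (he : e ≠ 0) (h : form e e = 0)
    (hu : form u e = 0) (hv : form v e = 0) : inner ℂ (proj e v) (proj e u) = form u v := by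
  have h0 := null_zero_ne he h
  have h0' : starRingEnd ℂ (e 0) ≠ 0 := by
    simpa using h0
  have hv' : form e v = 0 := by rw [form_conj v e, hv, map_zero]
  rw [form_eq] at h hu hv' ⊢
  have e1 : inner ℂ (proj e v) (proj e u)
      = ∑ j : Fin N, (u j.succ - u 0 / e 0 * e j.succ) *
        starRingEnd ℂ (v j.succ - v 0 / e 0 * e j.succ) := by
    rw [PiLp.inner_apply]
    exact Finset.sum_congr rfl fun j _ => by
      simp [proj]
  have e2 : ∑ j : Fin N, (u j.succ - u 0 / e 0 * e j.succ) *
        starRingEnd ℂ (v j.succ - v 0 / e 0 * e j.succ)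
      = ∑ j : Fin N, u j.succ * starRingEnd ℂ (v j.succ)
        - starRingEnd ℂ (v 0 / e 0) * ∑ j : Fin N, u j.succ * starRingEnd ℂ (e j.succ)
        - u 0 / e 0 * ∑ j : Fin N, e j.succ * starRingEnd ℂ (v j.succ)
        + u 0 / e 0 * starRingEnd ℂ (v 0 / e 0) * ∑ j : Fin N, e j.succ * starRingEnd ℂ (e j.succ) := by
    rw [Finset.mul_sum, Finset.mul_sum, Finset.mul_sum, ← Finset.sum_sub_distrib,
      ← Finset.sum_sub_distrib, ← Finset.sum_add_distrib]
    exact Finset.sum_congr rfl fun j _ => by rw [map_sub, map_mul]; ring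
  rw [e1, e2, sub_eq_zero.1 h, sub_eq_zero.1 hu, sub_eq_zero.1 hv', map_div₀]
  field_simp
  ring

lemma proj_self {N : ℕ} {e : Fin (N + 1) → ℂ} (h0 : e 0 ≠ 0) : proj e e = 0 := by
  ext j
  simp [proj, h0]

lemma proj_ker {N : ℕ} {e v : Fin (N + 1) → ℂ} (h0 : e 0 ≠ 0) (hv : proj e v = 0) :
    ∃ c : ℂ, v = c • e := by
  refine ⟨v 0 / e 0, ?_⟩
  funext c
  refine Fin.cases ?_ (fun j => ?_) c
  · simp [h0]
  · have := congrArg (fun w : EuclideanSpace ℂ (Fin N) => w j) hv
    simp only [proj, LinearMap.coe_mk, AddHom.coe_mk, PiLp.zero_apply] at this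
    simpa using sub_eq_zero.1 this

/-- The vector `e' ∈ ℂ^N`. -/
noncomputable def tail {N : ℕ} (e : Fin (N + 1) → ℂ) : EuclideanSpace ℂ (Fin N) :=
  WithLp.toLp 2 fun j => e j.succ

lemma tail_inner {N : ℕ} {e u : Fin (N + 1) → ℂ} (he : e ≠ 0) (h : form e e = 0)
    (hu : form u e = 0) : inner ℂ (tail e) (proj e u) = 0 := by
  have h0 := null_zero_ne he h
  have e1 : inner ℂ (tail e) (proj e u)
      = ∑ j : Fin N, u j.succ * starRingEnd ℂ (e j.succ)
        - u 0 / e 0 * ∑ j : Fin N, e j.succ * starRingEnd ℂ (e j.succ) := by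
    rw [PiLp.inner_apply, Finset.mul_sum, ← Finset.sum_sub_distrib]
    exact Finset.sum_congr rfl fun j _ => by
      simp [proj, tail]
      ring
  rw [form_eq] at h hu
  rw [e1, sub_eq_zero.1 hu, sub_eq_zero.1 h]
  field_simp
  ring

lemma finrank_proj {N : ℕ} {e : Fin (N + 1) → ℂ} (he : e ≠ 0) (h0 : e 0 ≠ 0)
    (S : Submodule ℂ (Fin (N + 1) → ℂ)) :
    Module.finrank ℂ S ≤ Module.finrank ℂ (S.map (proj e)) + 1 := by
  have h1 := LinearMap.finrank_range_add_finrank_ker ((proj e).domRestrict S)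
  have h2 : LinearMap.range ((proj e).domRestrict S) = S.map (proj e) := by
    rw [LinearMap.range_domRestrict]
  rw [h2] at h1
  have h3 : Module.finrank ℂ (LinearMap.ker ((proj e).domRestrict S)) ≤ 1 := by
    have h4 : (LinearMap.ker ((proj e).domRestrict S)).map S.subtype ≤ Submodule.span ℂ {e} := by
      rintro _ ⟨v, hv, rfl⟩
      have h5 : proj e v = 0 := hv
      obtain ⟨c, hc⟩ := proj_ker h0 h5
      rw [Submodule.subtype_apply, hc]
      exact Submodule.smul_mem _ _ (Submodule.mem_span_singleton_self e)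
    have h6 := Submodule.finrank_mono h4
    rw [finrank_span_singleton he] at h6
    rwa [Submodule.finrank_map_subtype_eq] at h6
  omega

theorem count {N m a : ℕ} {e : Fin (N + 1) → ℂ} (he : e ≠ 0) (h : form e e = 0)
    (S : Fin m → Submodule ℂ (Fin (N + 1) → ℂ))
    (hSe : ∀ i, ∀ u ∈ S i, form u e = 0)
    (horth : ∀ i j, i ≠ j → ∀ u ∈ S i, ∀ v ∈ S j, form u v = 0)
    (hdim : ∀ i, a + 1 ≤ Module.finrank ℂ (S i)) : 1 + m * a ≤ N := by
  classical
  have h0 := null_zero_ne he h
  set V : Option (Fin m) → Submodule ℂ (EuclideanSpace ℂ (Fin N)) := fun i =>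
    match i with
    | none => Submodule.span ℂ {tail e}
    | some i => (S i).map (proj e) with hV
  have hfam : OrthogonalFamily ℂ (fun i => V i) fun i => (V i).subtypeₗᵢ := by
    intro i j hij v w
    rcases i with _ | i <;> rcases j with _ | j
    · exact absurd rfl hij
    · obtain ⟨v, hv⟩ := v
      obtain ⟨w, u, hu, rfl⟩ := w
      obtain ⟨c, rfl⟩ := Submodule.mem_span_singleton.1 hv
      change inner ℂ (c • tail e) (proj e u) = 0
      rw [inner_smul_left, tail_inner he h (hSe j u hu), mul_zero]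
    · obtain ⟨w, hw⟩ := w
      obtain ⟨v, u, hu, rfl⟩ := v
      obtain ⟨c, rfl⟩ := Submodule.mem_span_singleton.1 hw
      change inner ℂ (proj e u) (c • tail e) = 0
      rw [inner_smul_right, ← inner_conj_symm, tail_inner he h (hSe i u hu), map_zero, mul_zero]
    · obtain ⟨_, v, hv, rfl⟩ := v
      obtain ⟨_, w, hw, rfl⟩ := w
      change inner ℂ (proj e v) (proj e w) = 0
      rw [proj_inner he h (hSe j w hw) (hSe i v hv)]
      exact horth j i (fun h => hij (by rw [h])) w hw v hv
  have hon := hfam.orthonormal_sigma_orthonormal (fun i => (stdOrthonormalBasis ℂ (V i)).orthonormal)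
  have hcard := hon.linearIndependent.fintype_card_le_finrank
  rw [finrank_euclideanSpace_fin, Fintype.card_sigma, Fintype.sum_option] at hcard
  simp only [Fintype.card_fin] at hcard
  have htail : tail e ≠ 0 := by
    intro h1
    rw [form_eq] at h
    have h2 : ∀ j : Fin N, e j.succ = 0 := fun j =>
      congrArg (fun w : EuclideanSpace ℂ (Fin N) => w j) h1
    simp only [h2, zero_mul, Finset.sum_const_zero, zero_sub, neg_eq_zero, mul_eq_zero] at h
    rcases h with h | h
    · exact h0 h
    · exact h0 (by simpa using h)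
  have h1 : Module.finrank ℂ (V none) = 1 := finrank_span_singleton htail
  have h2 : ∀ i, a ≤ Module.finrank ℂ (V (some i)) := by
    intro i
    have := finrank_proj he h0 (S i)
    have := hdim i
    have h4 : Module.finrank ℂ (V (some i)) = Module.finrank ℂ ((S i).map (proj e)) := rfl
    omega
  have h3 : ∑ _i : Fin m, a ≤ ∑ i, Module.finrank ℂ (V (some i)) :=
    Finset.sum_le_sum fun i _ => h2 i
  rw [Finset.sum_const, Finset.card_univ, Fintype.card_fin, smul_eq_mul] at h3
  omega

end Helper38.BallD
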