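import Mathlib

/-!
Expansion of polynomials along lines: `p (z + t ξ) = ∑ t^i G_i(z, ξ)`.
-/

namespace Helper38.BallD

open MvPolynomial

variable {n : ℕ}

/-- The polynomial ring in two groups of variables `z`, `ξ`. -/
abbrev R2 (n : ℕ) := MvPolynomial (Fin n ⊕ Fin n) ℂ

/-- The universal line expansion `p (z + t ξ)`. -/
noncomputable def uline (p : MvPolynomial (Fin n) ℂ) : Polynomial (R2 n) :=
  aeval (fun k => Polynomial.C (X (Sum.inl k)) + Polynomial.C (X (Sum.inr k)) * Polynomial.X) p

/-- The coefficients of the universal line expansion. -/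
noncomputable def G (i : ℕ) (p : MvPolynomial (Fin n) ℂ) : R2 n := (uline p).coeff i

/-- The numerical line expansion. -/
noncomputable def line (p : MvPolynomial (Fin n) ℂ) (z ξ : Fin n → ℂ) : Polynomial ℂ :=
  (uline p).map (eval (Sum.elim z ξ))

lemma line_coeff (p : MvPolynomial (Fin n) ℂ) (z ξ : Fin n → ℂ) (i : ℕ) :
    (line p z ξ).coeff i = eval (Sum.elim z ξ) (G i p) := by
  unfold line G
  rw [Polynomial.coeff_map]

lemma line_eval (p : MvPolynomial (Fin n) ℂ) (z ξ : Fin n → ℂ) (t : ℂ) :
    (line p z ξ).eval t = eval (fun k => z k + t * ξ k) p := by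
  have h : ((Polynomial.evalRingHom t).comp (Polynomial.mapRingHom (eval (Sum.elim z ξ)))).comp
      (aeval (fun k => Polynomial.C (X (Sum.inl k)) + Polynomial.C (X (Sum.inr k)) *
        Polynomial.X) : MvPolynomial (Fin n) ℂ →ₐ[ℂ] Polynomial (R2 n)).toRingHom
      = eval (fun k => z k + t * ξ k) := by
    apply ringHom_ext
    · intro a
      change Polynomial.eval t (Polynomial.map _ (aeval _ (C a))) = _
      rw [aeval_C, Polynomial.algebraMap_apply, Polynomial.map_C, Polynomial.eval_C, eval_C]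
      exact eval_C _
    · intro k
      change Polynomial.eval t (Polynomial.map _ (aeval _ (X k))) = _
      rw [aeval_X, Polynomial.map_add, Polynomial.map_C, Polynomial.map_mul, Polynomial.map_C,
        Polynomial.map_X, Polynomial.eval_add, Polynomial.eval_C, Polynomial.eval_mul,
        Polynomial.eval_C, Polynomial.eval_X, eval_X, eval_X, eval_X]
      simp only [Sum.elim_inl, Sum.elim_inr]
      ring
  exact congrArg (fun F => F p) h

lemma uline_natDegree {p : MvPolynomial (Fin n) ℂ} {d : ℕ} (hp : p.totalDegree ≤ d) :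
    (uline p).natDegree ≤ d := by
  unfold uline
  rw [aeval_def, eval₂_eq']
  refine Polynomial.natDegree_sum_le_of_forall_le _ _ fun m hm => ?_
  rw [Polynomial.algebraMap_apply]
  refine (Polynomial.natDegree_C_mul_le _ _).trans ?_
  refine (Polynomial.natDegree_prod_le _ _).trans ?_
  have h1 : ∑ k, m k ≤ d := by
    have h2 := le_totalDegree hm
    rw [Finsupp.sum_fintype _ _ (fun _ => rfl)] at h2
    exact h2.trans hp
  refine le_trans (Finset.sum_le_sum fun k _ => ?_) h1
  refine Polynomial.natDegree_pow_le.trans ?_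
  have h3 : (Polynomial.C (X (Sum.inl k)) + Polynomial.C (X (Sum.inr k)) * Polynomial.X :
      Polynomial (R2 n)).natDegree ≤ 1 := by
    refine (Polynomial.natDegree_add_le _ _).trans (max_le ?_ ?_)
    · simp
    · exact (Polynomial.natDegree_C_mul_le _ _).trans Polynomial.natDegree_X_le
  calc _ ≤ m k * 1 := Nat.mul_le_mul_left _ h3
    _ = m k := mul_one _

lemma G_eq_zero {p : MvPolynomial (Fin n) ℂ} {d i : ℕ} (hp : p.totalDegree ≤ d) (hi : d < i) :
    G i p = 0 :=
  Polynomial.coeff_eq_zero_of_natDegree_lt ((uline_natDegree hp).trans_lt hi)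

lemma line_natDegree {p : MvPolynomial (Fin n) ℂ} {d : ℕ} (hp : p.totalDegree ≤ d)
    (z ξ : Fin n → ℂ) : (line p z ξ).natDegree ≤ d :=
  Polynomial.natDegree_map_le.trans (uline_natDegree hp)

lemma eval_line_sum {p : MvPolynomial (Fin n) ℂ} {d : ℕ} (hp : p.totalDegree ≤ d)
    (z ξ : Fin n → ℂ) (t : ℂ) :
    eval (fun k => z k + t * ξ k) p
      = ∑ i ∈ Finset.range (d + 1), eval (Sum.elim z ξ) (G i p) * t ^ i := by
  rw [← line_eval, Polynomial.eval_eq_sum_range' (Nat.lt_succ_of_le (line_natDegree hp z ξ))]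
  simp only [line_coeff]

lemma uline_mul_X (p : MvPolynomial (Fin n) ℂ) (j : Fin n) :
    uline (p * X j) = uline p * Polynomial.C (X (Sum.inl j)) +
      (uline p * Polynomial.C (X (Sum.inr j))) * Polynomial.X := by
  unfold uline
  rw [map_mul, aeval_X]
  ring

lemma G_zero_mul_X (p : MvPolynomial (Fin n) ℂ) (j : Fin n) :
    G 0 (p * X j) = G 0 p * X (Sum.inl j) := by
  unfold G
  rw [uline_mul_X, Polynomial.coeff_add, Polynomial.coeff_mul_C, Polynomial.coeff_mul_X_zero,
    add_zero]

lemma G_succ_mul_X (p : MvPolynomial (Fin n) ℂ) (j : Fin n) (i : ℕ) :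
    G (i + 1) (p * X j) = G (i + 1) p * X (Sum.inl j) + G i p * X (Sum.inr j) := by
  unfold G
  rw [uline_mul_X, Polynomial.coeff_add, Polynomial.coeff_mul_C, Polynomial.coeff_mul_X,
    Polynomial.coeff_mul_C]

lemma G_add (p q : MvPolynomial (Fin n) ℂ) (i : ℕ) : G i (p + q) = G i p + G i q := by
  unfold G uline
  rw [map_add, Polynomial.coeff_add]

lemma G_C (a : ℂ) (i : ℕ) : G i (C a : MvPolynomial (Fin n) ℂ) = if i = 0 then C a else 0 := by
  unfold G uline
  rw [aeval_C, Polynomial.algebraMap_apply, Polynomial.coeff_C]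
  rfl

/-- The derivative relation. -/
lemma G_deriv (p : MvPolynomial (Fin n) ℂ) (k : Fin n) :
    pderiv (Sum.inr k) (G 0 p) = 0 ∧
      ∀ i, pderiv (Sum.inr k) (G (i + 1) p) = pderiv (Sum.inl k) (G i p) := by
  classical
  induction p using MvPolynomial.induction_on with
  | C a =>
    refine ⟨by rw [G_C]; simp, fun i => ?_⟩
    rw [G_C, G_C]
    by_cases hi : i = 0 <;> simp [hi]
  | add p q hp hq =>
    refine ⟨by rw [G_add, map_add, hp.1, hq.1, add_zero], fun i => ?_⟩
    rw [G_add, G_add, map_add, map_add, hp.2, hq.2]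
  | mul_X p j hp =>
    refine ⟨?_, fun i => ?_⟩
    · rw [G_zero_mul_X, pderiv_mul, hp.1]
      simp
    · obtain _ | i := i
      · rw [G_zero_mul_X, G_succ_mul_X, map_add, pderiv_mul, pderiv_mul, pderiv_mul, hp.1, hp.2]
        simp [pderiv_X, Pi.single_apply]
      · rw [G_succ_mul_X, G_succ_mul_X, map_add, map_add, pderiv_mul, pderiv_mul, pderiv_mul,
          pderiv_mul, hp.2, hp.2]
        simp [pderiv_X, Pi.single_apply]
        ring

lemma line_shift (p : MvPolynomial (Fin n) ℂ) (z ξ : Fin n → ℂ) (s : ℂ) :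
    line p (fun k => z k + s * ξ k) ξ = Polynomial.taylor s (line p z ξ) := by
  apply Polynomial.funext
  intro t
  rw [line_eval, Polynomial.taylor_eval, line_eval]
  congr 2
  funext k
  ring

end Helper38.BallD
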