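import Mathlib

/-!
The local algebraic lemma: division by the quadratic form `β = ∑ x_i y_i`.
-/

namespace Helper38.BallD

open MvPolynomial

/-- `β = ∑ x_i y_i`. -/
noncomputable def bet (m : ℕ) : MvPolynomial (Fin m ⊕ Fin m) ℂ :=
  ∑ i, X (Sum.inl i) * X (Sum.inr i)

lemma eval_bet {m : ℕ} (x y : Fin m → ℂ) : eval (Sum.elim x y) (bet m) = ∑ i, x i * y i := by
  simp [bet]

lemma bet_irreducible {m : ℕ} (hm : 2 ≤ m) : Irreducible (bet m) := by
  have h := irreducible_sumSMulXSMulY (R := ℂ)
    (Finsupp.equivFunOnFinite.symm (fun _ : Fin m => (1 : ℂ))) ?_ ?_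
  · have e : sumSMulXSMulY (Finsupp.equivFunOnFinite.symm (fun _ : Fin m => (1 : ℂ))) = bet m := by
      unfold sumSMulXSMulY bet
      rw [Finsupp.linearCombination_apply, Finsupp.sum_fintype]
      · simp
      · simp
    rwa [e] at h
  · have e : (Finsupp.equivFunOnFinite.symm (fun _ : Fin m => (1 : ℂ))).support = Finset.univ := by
      ext i
      simp
    rw [e]
    refine ⟨⟨0, by omega⟩, by simp, ⟨1, by omega⟩, by simp, ?_⟩
    intro h
    simp at h
  · intro r hr
    have := hr ⟨0, by omega⟩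
    simpa using this

lemma exists_point {m : ℕ} (hm : 2 ≤ m) {χ : MvPolynomial (Fin m ⊕ Fin m) ℂ} (h : ¬ bet m ∣ χ) :
    ∃ x y : Fin m → ℂ, ∑ i, x i * y i = 0 ∧ eval (Sum.elim x y) χ ≠ 0 := by
  by_contra hcon
  push Not at hcon
  apply h
  have hp : Prime (bet m) := (bet_irreducible hm).prime
  have hI : (Ideal.span {bet m}).IsPrime :=
    (Ideal.span_singleton_prime hp.ne_zero).2 hp
  rw [← Ideal.mem_span_singleton, ← IsPrime.vanishingIdeal_zeroLocus (K := ℂ) (Ideal.span {bet m}),
    mem_vanishingIdeal_iff]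
  intro v hv
  rw [mem_zeroLocus_iff] at hv
  have h1 := hv (bet m) (Ideal.mem_span_singleton_self _)
  have hve : v = Sum.elim (fun i => v (Sum.inl i)) (fun i => v (Sum.inr i)) := by
    funext i
    rcases i with i | i <;> rfl
  have h2 : ∀ p : MvPolynomial (Fin m ⊕ Fin m) ℂ, aeval v p = eval v p := fun p => rfl
  rw [h2] at h1 ⊢
  rw [hve] at h1 ⊢
  rw [eval_bet] at h1
  exact hcon _ _ h1

/-- Substitution of a number vector for the first group of variables. -/
noncomputable def subx {m : ℕ} (x : Fin m → ℂ) :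
    MvPolynomial (Fin m ⊕ Fin m) ℂ →ₐ[ℂ] MvPolynomial (Fin m) ℂ :=
  aeval (Sum.elim (fun i => C (x i)) X)

lemma eval_subx {m : ℕ} (x y : Fin m → ℂ) (p : MvPolynomial (Fin m ⊕ Fin m) ℂ) :
    eval y (subx x p) = eval (Sum.elim x y) p := by
  have h : (eval y).comp (subx x).toRingHom = eval (Sum.elim x y) := by
    apply ringHom_ext
    · intro a
      simp [subx]
    · intro i
      rcases i with i | i <;> simp [subx]
  exact congrArg (fun F => F p) h

lemma subx_rename_inl {m : ℕ} (x : Fin m → ℂ) (p : MvPolynomial (Fin m) ℂ) :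
    subx x (rename Sum.inl p) = C (eval x p) := by
  apply MvPolynomial.funext
  intro y
  rw [eval_subx, eval_rename, eval_C]
  rfl

lemma subx_rename_inr {m : ℕ} (x : Fin m → ℂ) (p : MvPolynomial (Fin m) ℂ) :
    subx x (rename Sum.inr p) = p := by
  apply MvPolynomial.funext
  intro y
  rw [eval_subx, eval_rename]
  rfl

lemma pderiv_inl_rename_inr {m : ℕ} (i : Fin m) (p : MvPolynomial (Fin m) ℂ) :
    pderiv (Sum.inl i : Fin m ⊕ Fin m) (rename Sum.inr p) = 0 := by
  classical
  apply pderiv_eq_zero_of_notMem_vars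
  intro h
  have := vars_rename (Sum.inr : Fin m → Fin m ⊕ Fin m) p h
  simp at this

lemma pderiv_inl_rename_inl {m : ℕ} (i : Fin m) (p : MvPolynomial (Fin m) ℂ) :
    pderiv (Sum.inl i : Fin m ⊕ Fin m) (rename Sum.inl p) = rename Sum.inl (pderiv i p) :=
  pderiv_rename Sum.inl_injective i p

lemma pderiv_inl_bet {m : ℕ} (i : Fin m) :
    pderiv (Sum.inl i : Fin m ⊕ Fin m) (bet m) = X (Sum.inr i) := by
  classical
  unfold bet
  rw [map_sum, Finset.sum_eq_single i]
  · simp
  · intro j _ hj
    simp [hj]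
  · simp

lemma key_indep {m : ℕ} {x y0 v : Fin m → ℂ} {i0 : Fin m} (hx : x i0 ≠ 0)
    (hv : v i0 = 0) (hy0 : ∑ i, x i * y0 i = 0) {g gv H : MvPolynomial (Fin m) ℂ}
    (hg : eval y0 g ≠ 0) (hH : eval 0 H ≠ 0) (hgv : v = 0 → gv = 0) {c γ : ℂ} {k : ℕ}
    (h : C γ * (∑ i, C (x i) * X i) * H + C c * (∑ i, C (x i) * X i) ^ (k + 2) * g +
      ((k + 2 : ℕ) : MvPolynomial (Fin m) ℂ) * (∑ i, C (x i) * X i) ^ (k + 1) *
        (∑ i, C (v i) * X i) * g + (∑ i, C (x i) * X i) ^ (k + 2) * gv = 0) :
    γ = 0 ∧ c = 0 ∧ v = 0 := by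
  classical
  set b : MvPolynomial (Fin m) ℂ := ∑ i, C (x i) * X i with hb
  set bv : MvPolynomial (Fin m) ℂ := ∑ i, C (v i) * X i with hbv
  have ebw : ∀ (w y : Fin m → ℂ), eval y (∑ i, C (w i) * X i) = ∑ i, w i * y i := by
    intro w y
    simp
  have hb0 : b ≠ 0 := by
    intro h0
    have := ebw x (Pi.single i0 1)
    rw [← hb, h0, map_zero] at this
    simp [Pi.single_apply] at this
    exact hx this.symm
  have hg0 : g ≠ 0 := by
    rintro rfl
    simp at hg
  have h1 : b * (C γ * H + b ^ k * (C c * b * g + ((k + 2 : ℕ) : MvPolynomial (Fin m) ℂ) * bv * g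
      + b * gv)) = 0 := by
    rw [← h]
    ring
  have h2 := (mul_eq_zero.1 h1).resolve_left hb0
  have e0b : eval (0 : Fin m → ℂ) b = 0 := by rw [hb, ebw]; simp
  have e0bv : eval (0 : Fin m → ℂ) bv = 0 := by rw [hbv, ebw]; simp
  have hγ : γ = 0 := by
    have := congrArg (eval (0 : Fin m → ℂ)) h2
    simp only [map_add, map_mul, map_pow, eval_C, e0b, e0bv, map_zero, mul_zero, zero_mul,
      add_zero] at this
    exact (mul_eq_zero.1 this).resolve_right hH
  rw [hγ, C_0, zero_mul, zero_add] at h2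
  have h3 := (mul_eq_zero.1 h2).resolve_left (pow_ne_zero _ hb0)
  have h4 : ∀ y : Fin m → ℂ, ∑ i, x i * y i = 0 → (∑ i, v i * y i) * eval y g = 0 := by
    intro y hy
    have := congrArg (eval y) h3
    rw [← ebw x y, ← hb] at hy
    simp only [map_add, map_mul, eval_C, hy, mul_zero, zero_mul, add_zero, zero_add,
      map_zero, map_natCast] at this
    rw [hbv, ebw] at this
    have hk : ((k + 2 : ℕ) : ℂ) ≠ 0 := by exact_mod_cast (by omega : k + 2 ≠ 0)
    rw [mul_assoc] at this
    exact (mul_eq_zero.1 this).resolve_left hk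
  have h5 : ∀ y : Fin m → ℂ, ∑ i, x i * y i = 0 → ∑ i, v i * y i = 0 := by
    intro y1 hy1
    by_contra hne
    have hv0 : ∑ i, v i * y0 i = 0 := (mul_eq_zero.1 (h4 y0 hy0)).resolve_right hg
    have h6 : ∀ s : ℂ, s ≠ 0 → eval (fun i => y0 i + s * y1 i) g = 0 := by
      intro s hs
      have h7 : ∑ i, x i * (y0 i + s * y1 i) = 0 := by
        have : ∑ i, x i * (y0 i + s * y1 i) = ∑ i, x i * y0 i + s * ∑ i, x i * y1 i := by
          rw [Finset.mul_sum, ← Finset.sum_add_distrib]
          exact Finset.sum_congr rfl fun i _ => by ring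
        rw [this, hy0, hy1]; ring
      have h8 := h4 _ h7
      have h9 : ∑ i, v i * (y0 i + s * y1 i) = s * ∑ i, v i * y1 i := by
        have : ∑ i, v i * (y0 i + s * y1 i) = ∑ i, v i * y0 i + s * ∑ i, v i * y1 i := by
          rw [Finset.mul_sum, ← Finset.sum_add_distrib]
          exact Finset.sum_congr rfl fun i _ => by ring
        rw [this, hv0, zero_add]
      rw [h9] at h8
      exact (mul_eq_zero.1 h8).resolve_left (mul_ne_zero hs hne)
    have hcont : Continuous fun s : ℂ => eval (fun i => y0 i + s * y1 i) g :=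
      (MvPolynomial.continuous_eval g).comp (by fun_prop)
    have h10 : (fun s : ℂ => eval (fun i => y0 i + s * y1 i) g) = fun _ => 0 := by
      apply Continuous.ext_on (s := {(0 : ℂ)}ᶜ) (dense_compl_singleton 0) hcont continuous_const
      intro s hs
      exact h6 s hs
    have h11 := congrFun h10 0
    simp only [zero_mul, add_zero] at h11
    exact hg h11
  have hv' : v = 0 := by
    funext l
    by_cases hl : l = i0
    · rw [hl, hv]; rfl
    · have h12 := h5 (fun i => x i0 * (if i = l then 1 else 0) - x l * (if i = i0 then 1 else 0)) (by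
        simp only [mul_sub, Finset.sum_sub_distrib]
        simp
        ring)
      simp only [mul_sub, Finset.sum_sub_distrib] at h12
      simp [hv] at h12
      exact h12.resolve_right hx
  have hc : c = 0 := by
    have hbv0 : bv = 0 := by rw [hbv, hv']; simp
    rw [hbv0, hgv hv'] at h3
    simp only [mul_zero, zero_mul, add_zero] at h3
    have h13 := (mul_eq_zero.1 ((mul_eq_zero.1 h3).resolve_right hg0)).resolve_right hb0
    exact (C_eq_zero).1 h13
  exact ⟨hγ, hc, hv'⟩

theorem local_dim {m : ℕ} {ι : Type*} [Fintype ι] (hm : 2 ≤ m) (d : ℕ)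
    (a : ℕ → ι → MvPolynomial (Fin m) ℂ) (e0 : ι → ℂ) (ha0 : ∀ c, a 0 c = C (e0 c)) (he0 : e0 ≠ 0)
    (B0 B1 : ι → MvPolynomial (Fin m) ℂ) (h0 h1 : ℕ → MvPolynomial (Fin m ⊕ Fin m) ℂ)
    (s00 : ∑ c, rename Sum.inl (a 0 c) * rename Sum.inr (B0 c)
      = (0 : MvPolynomial (Fin m ⊕ Fin m) ℂ))
    (s0 : ∀ i, ∑ c, rename Sum.inl (a (i + 1) c) * rename Sum.inr (B0 c) = bet m * h0 i)
    (s10 : ∑ c, rename Sum.inl (a 0 c) * rename Sum.inr (B1 c) = h0 0)
    (s1 : ∀ i, ∑ c, rename Sum.inl (a (i + 1) c) * rename Sum.inr (B1 c)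
      = h0 (i + 1) + bet m * h1 i)
    (r : ℕ → MvPolynomial (Fin m) ℂ)
    (hr : ∀ c, ∑ i ∈ Finset.range (d + 1), r i * a i c = 0)
    (hh : eval 0 (h0 0) ≠ 0) (U : ι → MvPolynomial (Fin m) ℂ)
    (hU : ∀ c, U c = ∑ i ∈ Finset.range (d + 1), r i * a (i + 1) c)
    (hΦ : ∑ c, rename Sum.inl (U c) * rename Sum.inr (B0 c)
      ≠ (0 : MvPolynomial (Fin m ⊕ Fin m) ℂ)) :
    ∃ x : Fin m → ℂ, ∀ S : Submodule ℂ (ι → ℂ), e0 ∈ S → (fun c => eval x (a 1 c)) ∈ S →
      (fun c => eval x (U c)) ∈ S → (∀ i, (fun c => eval x (pderiv i (U c))) ∈ S) →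
      m + 2 ≤ Module.finrank ℂ S := by
  classical
  set Φ : MvPolynomial (Fin m ⊕ Fin m) ℂ := ∑ c, rename Sum.inl (U c) * rename Sum.inr (B0 c)
    with hΦdef
  have hprime : Prime (bet m) := (bet_irreducible hm).prime
  -- step 1
  have e1 : Φ = bet m * ∑ i ∈ Finset.range (d + 1), rename Sum.inl (r i) * h0 i := by
    rw [hΦdef, Finset.mul_sum]
    simp only [hU, map_sum, map_mul, Finset.sum_mul]
    rw [Finset.sum_comm]
    refine Finset.sum_congr rfl fun i _ => ?_
    rw [mul_left_comm, ← s0 i, Finset.mul_sum]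
    exact Finset.sum_congr rfl fun c _ => by ring
  have e2 : ∑ i ∈ Finset.range (d + 1), rename Sum.inl (r i) *
      (∑ c, rename Sum.inl (a i c) * rename Sum.inr (B1 c))
        = (0 : MvPolynomial (Fin m ⊕ Fin m) ℂ) := by
    simp only [Finset.mul_sum]
    rw [Finset.sum_comm]
    refine Finset.sum_eq_zero fun c _ => ?_
    have := congrArg (rename (Sum.inl : Fin m → Fin m ⊕ Fin m)) (hr c)
    rw [map_sum, map_zero] at this
    simp only [map_mul] at this
    calc _ = (∑ i ∈ Finset.range (d + 1), rename Sum.inl (r i) * rename Sum.inl (a i c)) *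
        rename Sum.inr (B1 c) := by
          rw [Finset.sum_mul]
          exact Finset.sum_congr rfl fun i _ => by ring
      _ = 0 := by rw [this, zero_mul]
  have e3 : ∑ i ∈ Finset.range (d + 1), rename Sum.inl (r i) * h0 i
      = bet m * (-∑ i ∈ Finset.range d, rename Sum.inl (r (i + 1)) * h1 i) := by
    rw [Finset.sum_range_succ', s10] at e2
    rw [Finset.sum_range_succ']
    simp only [s1, mul_add, Finset.sum_add_distrib] at e2
    have e4 : ∑ i ∈ Finset.range d, rename Sum.inl (r (i + 1)) * (bet m * h1 i)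
        = bet m * ∑ i ∈ Finset.range d, rename Sum.inl (r (i + 1)) * h1 i := by
      rw [Finset.mul_sum]
      exact Finset.sum_congr rfl fun i _ => by ring
    rw [e4] at e2
    linear_combination e2
  have e5 : bet m ^ 2 ∣ Φ := by
    rw [e1, e3, ← mul_assoc, ← pow_two]
    exact dvd_mul_right _ _
  -- step 2
  have hfin : FiniteMultiplicity (bet m) Φ :=
    FiniteMultiplicity.of_not_isUnit hprime.not_isUnit hΦ
  obtain ⟨χ, hχ, hnd⟩ := hfin.exists_eq_pow_mul_and_not_dvd
  set k0 := multiplicity (bet m) Φ with hk0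
  have hk2 : 2 ≤ k0 := by
    rw [hk0]
    exact hfin.le_multiplicity_of_pow_dvd e5
  obtain ⟨k, hk⟩ : ∃ k, k0 = k + 2 := ⟨k0 - 2, by omega⟩
  rw [hk] at hχ
  -- step 3 : the point
  set i0 : Fin m := ⟨0, by omega⟩ with hi0
  have hX : ¬ bet m ∣ (X (Sum.inl i0) : MvPolynomial (Fin m ⊕ Fin m) ℂ) := by
    rintro ⟨w, hw⟩
    have h2 := congrArg (eval (Sum.elim (Pi.single i0 1) (0 : Fin m → ℂ))) hw
    rw [map_mul, eval_bet] at h2
    simp at h2
  have hnd2 : ¬ bet m ∣ χ * X (Sum.inl i0) := by
    intro hcon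
    rcases hprime.dvd_or_dvd hcon with h2 | h2
    · exact hnd h2
    · exact hX h2
  obtain ⟨x, y0, hxy, hne⟩ := exists_point hm hnd2
  rw [map_mul, eval_X] at hne
  have hx0 : x i0 ≠ 0 := right_ne_zero_of_mul hne
  have hg0 : eval y0 (subx x χ) ≠ 0 := by
    rw [eval_subx]
    exact left_ne_zero_of_mul hne
  -- pairing
  have hsb : subx x (bet m) = ∑ i, C (x i) * X i := by
    simp [bet, subx]
  have hS0 : ∑ c, C (e0 c) * B0 c = 0 := by
    have := congrArg (subx x) s00
    rw [map_sum, map_zero] at this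
    rw [← this]
    refine Finset.sum_congr rfl fun c _ => ?_
    rw [map_mul, subx_rename_inl, subx_rename_inr, ha0, eval_C]
  have hS1 : ∑ c, C (eval x (a 1 c)) * B0 c = (∑ i, C (x i) * X i) * subx x (h0 0) := by
    have := congrArg (subx x) (s0 0)
    rw [map_sum, map_mul, hsb] at this
    rw [← this]
    refine Finset.sum_congr rfl fun c _ => ?_
    rw [map_mul, subx_rename_inl, subx_rename_inr]
  have hSU : ∑ c, C (eval x (U c)) * B0 c
      = (∑ i, C (x i) * X i) ^ (k + 2) * subx x χ := by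
    have := congrArg (subx x) hχ
    rw [map_mul, map_pow, hsb, hΦdef, map_sum] at this
    rw [← this]
    refine Finset.sum_congr rfl fun c _ => ?_
    rw [map_mul, subx_rename_inl, subx_rename_inr]
  have hSD : ∀ i, ∑ c, C (eval x (pderiv i (U c))) * B0 c
      = ((k + 2 : ℕ) : MvPolynomial (Fin m) ℂ) * (∑ i, C (x i) * X i) ^ (k + 1) * X i *
          subx x χ + (∑ i, C (x i) * X i) ^ (k + 2) * subx x (pderiv (Sum.inl i) χ) := by
    intro i
    have h2 := congrArg (fun p => subx x (pderiv (Sum.inl i) p)) hχ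
    simp only [pderiv_mul, pderiv_pow, pderiv_inl_bet, map_add, map_mul, map_pow, hsb,
      map_natCast] at h2
    rw [hΦdef, map_sum, map_sum] at h2
    have h3 : subx x (X (Sum.inr i)) = X i := by simp [subx]
    rw [h3] at h2
    have h4 : k + 2 - 1 = k + 1 := rfl
    rw [h4] at h2
    rw [← h2]
    refine Finset.sum_congr rfl fun c _ => ?_
    rw [pderiv_mul, pderiv_inl_rename_inr, mul_zero, add_zero, pderiv_inl_rename_inl, map_mul,
      subx_rename_inl, subx_rename_inr]
  refine ⟨x, fun S m0 m1 mU mD => ?_⟩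
  -- the family
  set w : Fin 2 ⊕ Fin m → (ι → ℂ) := Sum.elim
    (fun j => if j = 0 then e0 else fun c => eval x (a 1 c))
    (fun i => if i = i0 then (fun c => eval x (U c)) else fun c => eval x (pderiv i (U c)))
    with hw
  have hwS : ∀ j, w j ∈ S := by
    intro j
    rcases j with j | i
    · simp only [hw, Sum.elim_inl]
      split_ifs
      · exact m0
      · exact m1
    · simp only [hw, Sum.elim_inr]
      split_ifs
      · exact mU
      · exact mD i
  have hli : LinearIndependent ℂ w := by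
    rw [Fintype.linearIndependent_iff]
    intro co hco
    set v : Fin m → ℂ := fun i => if i = i0 then 0 else co (Sum.inr i) with hv
    have hcomp : ∀ c, co (Sum.inl 0) * e0 c + co (Sum.inl 1) * eval x (a 1 c) +
        co (Sum.inr i0) * eval x (U c) + ∑ i, v i * eval x (pderiv i (U c)) = 0 := by
      intro c
      have h2 := congrFun hco c
      rw [Fintype.sum_sum_type, Fin.sum_univ_two] at h2
      simp only [hw, Sum.elim_inl, Sum.elim_inr, Pi.add_apply, Finset.sum_apply, Pi.smul_apply,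
        smul_eq_mul, Pi.zero_apply, if_true, if_neg (by decide : ¬ (1 : Fin 2) = 0)] at h2
      rw [← h2, add_assoc, ← Finset.add_sum_erase Finset.univ _ (Finset.mem_univ i0)]
      rw [← Finset.add_sum_erase (Finset.univ : Finset (Fin m))
        (fun i => co (Sum.inr i) * (if i = i0 then (fun c => eval x (U c))
          else fun c => eval x (pderiv i (U c))) c) (Finset.mem_univ i0)]
      have h3 : v i0 = 0 := by simp [hv]
      rw [h3, zero_mul, zero_add]
      congr 1
      simp only [if_true]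
      congr 1
      refine Finset.sum_congr rfl fun i hi => ?_
      have hne' := Finset.ne_of_mem_erase hi
      simp [hv, hne']
    have hpoly : C (co (Sum.inl 1)) * (∑ i, C (x i) * X i) * subx x (h0 0) +
        C (co (Sum.inr i0)) * (∑ i, C (x i) * X i) ^ (k + 2) * subx x χ +
        ((k + 2 : ℕ) : MvPolynomial (Fin m) ℂ) * (∑ i, C (x i) * X i) ^ (k + 1) *
          (∑ i, C (v i) * X i) * subx x χ + (∑ i, C (x i) * X i) ^ (k + 2) *
          (∑ i, C (v i) * subx x (pderiv (Sum.inl i) χ)) = 0 := by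
      have h2 : ∑ c, C (co (Sum.inl 0) * e0 c + co (Sum.inl 1) * eval x (a 1 c) +
        co (Sum.inr i0) * eval x (U c) + ∑ i, v i * eval x (pderiv i (U c))) * B0 c = 0 := by
        refine Finset.sum_eq_zero fun c _ => ?_
        rw [hcomp, C_0, zero_mul]
      have h3 : ∑ c, C (co (Sum.inl 0) * e0 c + co (Sum.inl 1) * eval x (a 1 c) +
        co (Sum.inr i0) * eval x (U c) + ∑ i, v i * eval x (pderiv i (U c))) * B0 c
          = C (co (Sum.inl 0)) * (∑ c, C (e0 c) * B0 c) +
            C (co (Sum.inl 1)) * (∑ c, C (eval x (a 1 c)) * B0 c) +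
            C (co (Sum.inr i0)) * (∑ c, C (eval x (U c)) * B0 c) +
            ∑ i, C (v i) * (∑ c, C (eval x (pderiv i (U c))) * B0 c) := by
        have h7 : ∀ c, C (co (Sum.inl 0) * e0 c + co (Sum.inl 1) * eval x (a 1 c) +
            co (Sum.inr i0) * eval x (U c) + ∑ i, v i * eval x (pderiv i (U c))) * B0 c
            = C (co (Sum.inl 0)) * (C (e0 c) * B0 c) +
              C (co (Sum.inl 1)) * (C (eval x (a 1 c)) * B0 c) +
              C (co (Sum.inr i0)) * (C (eval x (U c)) * B0 c) +
              ∑ i, C (v i) * (C (eval x (pderiv i (U c))) * B0 c) := by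
          intro c
          simp only [C_add, C_mul, add_mul, map_sum, Finset.sum_mul, mul_assoc]
        simp only [h7, Finset.sum_add_distrib, ← Finset.mul_sum]
        congr 1
        rw [Finset.sum_comm]
        exact Finset.sum_congr rfl fun i _ => by rw [Finset.mul_sum]
      rw [h3, hS0, hS1, hSU] at h2
      simp only [hSD] at h2
      have h8 : ∀ (K b g : MvPolynomial (Fin m) ℂ) (gi : Fin m → MvPolynomial (Fin m) ℂ),
          ∑ i, C (v i) * (K * b ^ (k + 1) * X i * g + b ^ (k + 2) * gi i)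
            = K * b ^ (k + 1) * (∑ i, C (v i) * X i) * g + b ^ (k + 2) * ∑ i, C (v i) * gi i := by
        intro K b g gi
        rw [Finset.mul_sum, Finset.sum_mul, Finset.mul_sum, ← Finset.sum_add_distrib]
        exact Finset.sum_congr rfl fun i _ => by ring
      rw [h8] at h2
      rw [← h2]
      ring
    obtain ⟨hγ, hc, hv0⟩ := key_indep hx0 (by simp [hv]) hxy hg0 (by
      rw [eval_subx]
      have h2 : eval (Sum.elim x (0 : Fin m → ℂ)) (h0 0) = eval 0 (h0 0) := by
        rw [← s10, map_sum, map_sum]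
        refine Finset.sum_congr rfl fun c _ => ?_
        rw [map_mul, map_mul, ha0, rename_C, eval_C, eval_C, eval_rename, eval_rename]
        rfl
      rw [h2]
      exact hh) (by
      intro h
      rw [h]
      simp) hpoly
    have hα : co (Sum.inl 0) = 0 := by
      have h2 : ∀ c, co (Sum.inl 0) * e0 c = 0 := by
        intro c
        have h3 := hcomp c
        rw [hγ, hc, hv0] at h3
        simpa using h3
      obtain ⟨c, hc⟩ : ∃ c, e0 c ≠ 0 := by
        by_contra hcon
        push Not at hcon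
        exact he0 (funext hcon)
      exact (mul_eq_zero.1 (h2 c)).resolve_right hc
    intro j
    rcases j with j | i
    · fin_cases j
      · exact hα
      · exact hγ
    · by_cases hi : i = i0
      · rw [hi]; exact hc
      · have := congrFun hv0 i
        simpa [hv, hi] using this
  have hli2 : LinearIndependent ℂ (fun j => (⟨w j, hwS j⟩ : S)) :=
    LinearIndependent.of_comp S.subtype hli
  have hcard := hli2.fintype_card_le_finrank
  simp only [Fintype.card_sum, Fintype.card_fin] at hcard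
  omega

end Helper38.BallD
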