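import Pool.Agent.Helper38.D.Line

/-!
Generic rank of the coefficient vectors of the line expansion, relations and their shifts.
-/

namespace Helper38.BallD

open MvPolynomial

variable {n : ℕ} {ι : Type*}

/-- The coefficient vectors of the line expansion at a point. -/
noncomputable def vec (P : ι → MvPolynomial (Fin n) ℂ) (i : ℕ) (z ξ : Fin n → ℂ) : ι → ℂ :=
  fun c => eval (Sum.elim z ξ) (G i (P c))

/-- The span of the coefficient vectors. -/
noncomputable def Sp (P : ι → MvPolynomial (Fin n) ℂ) (d : ℕ) (z ξ : Fin n → ℂ) :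
    Submodule ℂ (ι → ℂ) :=
  Submodule.span ℂ (Set.range fun i : Fin (d + 1) => vec P i z ξ)

lemma vec_mem {P : ι → MvPolynomial (Fin n) ℂ} {d : ℕ} (hP : ∀ c, (P c).totalDegree ≤ d)
    (i : ℕ) (z ξ : Fin n → ℂ) : vec P i z ξ ∈ Sp P d z ξ := by
  by_cases hi : i ≤ d
  · exact Submodule.subset_span ⟨⟨i, Nat.lt_succ_of_le hi⟩, rfl⟩
  · have : vec P i z ξ = 0 := by
      funext c
      unfold vec
      rw [G_eq_zero (hP c) (not_le.1 hi), map_zero]
      rfl
    rw [this]
    exact Submodule.zero_mem _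

lemma finrank_Sp_le [Fintype ι] (P : ι → MvPolynomial (Fin n) ℂ) (d : ℕ) (z ξ : Fin n → ℂ) :
    Module.finrank ℂ (Sp P d z ξ) ≤ d + 1 := by
  have := finrank_range_le_card (R := ℂ) (fun i : Fin (d + 1) => vec P i z ξ)
  rw [Set.finrank, Fintype.card_fin] at this
  exact this

/-- The shifted relation. -/
noncomputable def shiftRel (P : ι → MvPolynomial (Fin n) ℂ) (d : ℕ) (r : ℕ → R2 n) (c : ι) : R2 n :=
  ∑ i ∈ Finset.range (d + 1), r i * G (i + 1) (P c)

lemma shiftRel_mem {P : ι → MvPolynomial (Fin n) ℂ} {d : ℕ} (hP : ∀ c, (P c).totalDegree ≤ d)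
    (r : ℕ → R2 n) (z ξ : Fin n → ℂ) :
    (fun c => eval (Sum.elim z ξ) (shiftRel P d r c)) ∈ Sp P d z ξ := by
  have : (fun c => eval (Sum.elim z ξ) (shiftRel P d r c))
      = ∑ i ∈ Finset.range (d + 1), eval (Sum.elim z ξ) (r i) • vec P (i + 1) z ξ := by
    funext c
    simp [shiftRel, vec, map_sum]
  rw [this]
  exact Submodule.sum_mem _ fun i _ => Submodule.smul_mem _ _ (vec_mem hP _ _ _)

lemma shiftRel_deriv_mem {P : ι → MvPolynomial (Fin n) ℂ} {d : ℕ}
    (hP : ∀ c, (P c).totalDegree ≤ d) {r : ℕ → R2 n}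
    (hr : ∀ c, ∑ i ∈ Finset.range (d + 1), r i * G i (P c) = 0) (k : Fin n) (z ξ : Fin n → ℂ) :
    (fun c => eval (Sum.elim z ξ) (pderiv (Sum.inr k) (shiftRel P d r c))) ∈ Sp P d z ξ := by
  have h1 : ∀ c, pderiv (Sum.inr k) (shiftRel P d r c)
      = ∑ i ∈ Finset.range (d + 1), pderiv (Sum.inr k) (r i) * G (i + 1) (P c) -
        ∑ i ∈ Finset.range (d + 1), pderiv (Sum.inl k) (r i) * G i (P c) := by
    intro c
    have h2 := congrArg (pderiv (Sum.inl k)) (hr c)
    rw [map_sum, map_zero] at h2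
    simp only [pderiv_mul, Finset.sum_add_distrib] at h2
    unfold shiftRel
    rw [map_sum]
    simp only [pderiv_mul, Finset.sum_add_distrib, (G_deriv (P c) k).2]
    linear_combination h2
  have h3 : (fun c => eval (Sum.elim z ξ) (pderiv (Sum.inr k) (shiftRel P d r c)))
      = ∑ i ∈ Finset.range (d + 1), eval (Sum.elim z ξ) (pderiv (Sum.inr k) (r i)) •
          vec P (i + 1) z ξ -
        ∑ i ∈ Finset.range (d + 1), eval (Sum.elim z ξ) (pderiv (Sum.inl k) (r i)) •
          vec P i z ξ := by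
    funext c
    rw [h1]
    simp [vec, map_sum]
  rw [h3]
  exact Submodule.sub_mem _
    (Submodule.sum_mem _ fun i _ => Submodule.smul_mem _ _ (vec_mem hP _ _ _))
    (Submodule.sum_mem _ fun i _ => Submodule.smul_mem _ _ (vec_mem hP _ _ _))

/-- The data of a maximal minor. -/
theorem exists_minor [Fintype ι] {P : ι → MvPolynomial (Fin n) ℂ} {d : ℕ} (hP : ∀ c, (P c).totalDegree ≤ d) :
    ∃ (a : ℕ) (D : R2 n) (rel : ℕ → ℕ → R2 n), D ≠ 0 ∧
      (∀ z ξ, Module.finrank ℂ (Sp P d z ξ) ≤ a) ∧
      (∀ z ξ, eval (Sum.elim z ξ) D ≠ 0 → a ≤ Module.finrank ℂ (Sp P d z ξ)) ∧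
      (∀ j c, j ≤ d → ∑ i ∈ Finset.range (d + 1), rel j i * G i (P c) = 0) ∧
      (∀ (z ξ : Fin n → ℂ) (s : ℕ → ℂ), ∑ j ∈ Finset.range (d + 1), s j • vec P j z ξ = 0 →
        ∑ j ∈ Finset.range (d + 1), s j • (fun c => eval (Sum.elim z ξ) (shiftRel P d (rel j) c))
          = -(eval (Sum.elim z ξ) D) • ∑ j ∈ Finset.range (d + 1), s j • vec P (j + 1) z ξ) := by
  classical
  -- maximal rank
  set F : (Fin n → ℂ) × (Fin n → ℂ) → ℕ := fun zx => Module.finrank ℂ (Sp P d zx.1 zx.2) with hF
  have hbdd : BddAbove (Set.range F) := ⟨d + 1, by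
    rintro _ ⟨zx, rfl⟩
    exact finrank_Sp_le P d _ _⟩
  have hne : (Set.range F).Nonempty := ⟨_, ⟨(0, 0), rfl⟩⟩
  obtain ⟨⟨z0, ξ0⟩, hz0⟩ := Nat.sSup_mem hne hbdd
  set a := sSup (Set.range F) with ha
  have hmax : ∀ z ξ, Module.finrank ℂ (Sp P d z ξ) ≤ a := fun z ξ =>
    le_csSup hbdd ⟨(z, ξ), rfl⟩
  have hz0' : Module.finrank ℂ (Sp P d z0 ξ0) = a := hz0
  -- independent subfamily
  obtain ⟨κ, idx, hinj, hspan, hli⟩ := exists_linearIndependent' ℂ
    (fun i : Fin (d + 1) => vec P i z0 ξ0)
  have : Finite κ := Finite.of_injective idx hinj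
  have : Fintype κ := Fintype.ofFinite κ
  have hcard : Fintype.card κ = a := by
    rw [← hz0', Sp, ← hspan]
    exact (finrank_span_eq_card hli).symm
  let eκ : Fin a ≃ κ := (Fintype.equivFinOfCardEq hcard).symm
  set I : Fin a → ℕ := fun r => (idx (eκ r) : ℕ) with hI
  have hId : ∀ r, I r ≤ d := fun r => Nat.lt_succ_iff.1 (idx (eκ r)).2
  have hliI : LinearIndependent ℂ (fun r => vec P (I r) z0 ξ0) :=
    hli.comp eκ eκ.injective
  -- left inverse
  obtain ⟨ℓ, hℓ⟩ := LinearMap.exists_leftInverse_of_injective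
    (Fintype.linearCombination ℂ (fun r => vec P (I r) z0 ξ0))
    (by
      rw [LinearMap.ker_eq_bot]
      exact linearIndependent_iff_injective_fintypeLinearCombination.1 hliI)
  have hℓ1 : ∀ r, ℓ (vec P (I r) z0 ξ0) = Pi.single r 1 := by
    intro r
    have := congrArg (fun T => T (Pi.single r 1)) hℓ
    simpa [Fintype.linearCombination_apply_single] using this
  set L : Fin a → ι → ℂ := fun s c => ℓ (Pi.single c 1) s with hL
  have hLs : ∀ (v : ι → ℂ) s, ℓ v s = ∑ c, L s c * v c := by
    intro v s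
    have h1 : v = ∑ c, v c • Pi.single c (1 : ℂ) := by
      funext c
      simp [Finset.sum_apply, Pi.single_apply]
    conv_lhs => rw [h1]
    rw [map_sum, Finset.sum_apply]
    refine Finset.sum_congr rfl fun c _ => ?_
    rw [map_smul, Pi.smul_apply, smul_eq_mul, mul_comm]
  set g : ℕ → Fin a → R2 n := fun i s => ∑ c, C (L s c) * G i (P c) with hg
  have hgev : ∀ i s z ξ, eval (Sum.elim z ξ) (g i s) = ℓ (vec P i z ξ) s := by
    intro i s z ξ
    rw [hLs, hg]
    simp [vec, map_sum]
  set M : Matrix (Fin a) (Fin a) (R2 n) := Matrix.of fun s r => g (I r) s with hM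
  set D := M.det with hD
  set x : ℕ → Fin a → R2 n := fun j => M.cramer (g j) with hx
  set rel : ℕ → ℕ → R2 n := fun j i => (∑ r, if I r = i then x j r else 0) - if i = j then D else 0
    with hrel
  have hrelsum : ∀ (j : ℕ), j ≤ d → ∀ (F : ℕ → R2 n),
      ∑ i ∈ Finset.range (d + 1), rel j i * F i = ∑ r, x j r * F (I r) - D * F j := by
    intro j hj F
    simp only [hrel, sub_mul, Finset.sum_sub_distrib, Finset.sum_mul, ite_mul, zero_mul]
    congr 1
    · rw [Finset.sum_comm]
      refine Finset.sum_congr rfl fun r _ => ?_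
      rw [Finset.sum_ite_eq, if_pos (Finset.mem_range.2 (Nat.lt_succ_of_le (hId r)))]
    · rw [Finset.sum_ite_eq', if_pos (Finset.mem_range.2 (Nat.lt_succ_of_le hj))]
  -- the numerical matrix
  have hMev : ∀ z ξ, (M.map (eval (Sum.elim z ξ)))
      = Matrix.of fun s r => ℓ (vec P (I r) z ξ) s := by
    intro z ξ
    ext s r
    simp [hM, hgev]
  have hDev : ∀ z ξ, eval (Sum.elim z ξ) D
      = (Matrix.of fun s r => ℓ (vec P (I r) z ξ) s).det := by
    intro z ξ
    rw [hD, RingHom.map_det, RingHom.mapMatrix_apply, hMev]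
  have hxev : ∀ z ξ j r, eval (Sum.elim z ξ) (x j r)
      = (Matrix.of fun s r => ℓ (vec P (I r) z ξ) s).cramer (ℓ (vec P j z ξ)) r := by
    intro z ξ j r
    rw [hx]
    simp only
    rw [Matrix.cramer_apply, RingHom.map_det, Matrix.cramer_apply]
    congr 1
    ext s r'
    rw [RingHom.mapMatrix_apply, Matrix.map_apply, Matrix.updateCol_apply, Matrix.updateCol_apply]
    split_ifs
    · exact hgev j s z ξ
    · simp only [hM, Matrix.of_apply]
      exact hgev _ _ _ _
  have hliz : ∀ z ξ, eval (Sum.elim z ξ) D ≠ 0 →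
      LinearIndependent ℂ (fun r => vec P (I r) z ξ) := by
    intro z ξ hne
    rw [hDev] at hne
    rw [Fintype.linearIndependent_iff]
    intro co hco
    have h1 : (Matrix.of fun s r => ℓ (vec P (I r) z ξ) s).mulVec co = 0 := by
      funext s
      have h2 := congrFun (congrArg ℓ hco) s
      rw [map_sum, map_zero, Finset.sum_apply] at h2
      rw [Pi.zero_apply, Matrix.mulVec, dotProduct] at *
      rw [← h2]
      refine Finset.sum_congr rfl fun r _ => ?_
      rw [map_smul, Pi.smul_apply, smul_eq_mul, Matrix.of_apply, mul_comm]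
    have h3 : co = 0 := by
      by_contra hco0
      exact hne (Matrix.exists_mulVec_eq_zero_iff.1 ⟨co, hco0, h1⟩)
    exact fun r => congrFun h3 r
  refine ⟨a, D, rel, ?_, hmax, ?_, ?_, ?_⟩
  · intro h0
    have h1 := hDev z0 ξ0
    rw [h0, map_zero] at h1
    have h2 : (Matrix.of fun s r => ℓ (vec P (I r) z0 ξ0) s) = (1 : Matrix (Fin a) (Fin a) ℂ) := by
      ext s r
      rw [Matrix.of_apply, hℓ1, Matrix.one_apply, Pi.single_apply]
    rw [h2, Matrix.det_one] at h1
    exact zero_ne_one h1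
  · intro z ξ hne
    have h1 := finrank_span_eq_card (hliz z ξ hne)
    rw [Fintype.card_fin] at h1
    rw [← h1]
    apply Submodule.finrank_mono
    rw [Submodule.span_le]
    rintro _ ⟨r, rfl⟩
    exact vec_mem hP _ _ _
  · intro j c hj
    rw [hrelsum j hj]
    have h1 : D * (∑ r, x j r * G (I r) (P c) - D * G j (P c)) = 0 := by
      apply MvPolynomial.funext
      intro v
      set z : Fin n → ℂ := fun k => v (Sum.inl k)
      set ξ : Fin n → ℂ := fun k => v (Sum.inr k)
      have hv : v = Sum.elim z ξ := by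
        funext k
        rcases k with k | k <;> rfl
      rw [hv, map_mul, map_zero, mul_eq_zero]
      by_cases hne : eval (Sum.elim z ξ) D = 0
      · exact Or.inl hne
      right
      have hli2 := hliz z ξ hne
      have h2 : Submodule.span ℂ (Set.range fun r => vec P (I r) z ξ) = Sp P d z ξ := by
        apply Submodule.eq_of_le_of_finrank_le
        · rw [Submodule.span_le]
          rintro _ ⟨r, rfl⟩
          exact vec_mem hP _ _ _
        · rw [finrank_span_eq_card hli2, Fintype.card_fin]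
          exact hmax z ξ
      have h3 : vec P j z ξ ∈ Submodule.span ℂ (Set.range fun r => vec P (I r) z ξ) := by
        rw [h2]
        exact vec_mem hP _ _ _
      obtain ⟨y, hy⟩ := (Submodule.mem_span_range_iff_exists_fun ℂ).1 h3
      have h4 : (Matrix.of fun s r => ℓ (vec P (I r) z ξ) s).mulVec y = ℓ (vec P j z ξ) := by
        funext s
        rw [← hy, map_sum, Finset.sum_apply, Matrix.mulVec, dotProduct]
        refine Finset.sum_congr rfl fun r _ => ?_
        rw [map_smul, Pi.smul_apply, smul_eq_mul, Matrix.of_apply, mul_comm]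
      have h5 : ∀ r, eval (Sum.elim z ξ) (x j r) = eval (Sum.elim z ξ) D * y r := by
        intro r
        rw [hxev, ← h4, Matrix.cramer_eq_adjugate_mulVec, Matrix.mulVec_mulVec,
          Matrix.adjugate_mul, Matrix.smul_mulVec, Matrix.one_mulVec, hDev]
        rfl
      rw [map_sub, map_sum]
      simp only [map_mul, h5]
      have h6 := congrFun hy c
      rw [Finset.sum_apply] at h6
      simp only [Pi.smul_apply, smul_eq_mul, vec] at h6
      rw [← h6, Finset.mul_sum, ← Finset.sum_sub_distrib]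
      exact Finset.sum_eq_zero fun r _ => by ring
    refine (mul_eq_zero.1 h1).resolve_left ?_
    intro h0
    have h1 := hDev z0 ξ0
    rw [h0, map_zero] at h1
    have h2 : (Matrix.of fun s r => ℓ (vec P (I r) z0 ξ0) s) = (1 : Matrix (Fin a) (Fin a) ℂ) := by
      ext s r
      rw [Matrix.of_apply, hℓ1, Matrix.one_apply, Pi.single_apply]
    rw [h2, Matrix.det_one] at h1
    exact zero_ne_one h1
  · intro z ξ s hs
    funext c
    have h1 : ∀ j, j ≤ d → eval (Sum.elim z ξ) (shiftRel P d (rel j) c)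
        = ∑ r, eval (Sum.elim z ξ) (x j r) * vec P (I r + 1) z ξ c -
          eval (Sum.elim z ξ) D * vec P (j + 1) z ξ c := by
      intro j hj
      unfold shiftRel
      rw [hrelsum j hj (fun i => G (i + 1) (P c))]
      simp [vec, map_sum]
    have h2 : ∀ r, ∑ j ∈ Finset.range (d + 1), s j * eval (Sum.elim z ξ) (x j r) = 0 := by
      intro r
      simp only [hxev]
      have h3 : ∑ j ∈ Finset.range (d + 1), s j •
          (Matrix.of fun s r => ℓ (vec P (I r) z ξ) s).cramer (ℓ (vec P j z ξ)) = 0 := by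
        have h4 : (Matrix.of fun s r => ℓ (vec P (I r) z ξ) s).cramer
            (ℓ (∑ j ∈ Finset.range (d + 1), s j • vec P j z ξ)) = 0 := by
          rw [hs, map_zero, map_zero]
        rw [map_sum, map_sum] at h4
        simpa only [map_smul] using h4
      have h5 := congrFun h3 r
      rw [Finset.sum_apply] at h5
      simpa using h5
    rw [Finset.sum_apply, Pi.smul_apply, Finset.sum_apply]
    simp only [Pi.smul_apply, smul_eq_mul]
    have h6 : ∑ j ∈ Finset.range (d + 1), s j * eval (Sum.elim z ξ) (shiftRel P d (rel j) c)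
        = ∑ j ∈ Finset.range (d + 1), s j *
          (∑ r, eval (Sum.elim z ξ) (x j r) * vec P (I r + 1) z ξ c -
          eval (Sum.elim z ξ) D * vec P (j + 1) z ξ c) := by
      refine Finset.sum_congr rfl fun j hj => ?_
      rw [h1 j (Nat.lt_succ_iff.1 (Finset.mem_range.1 hj))]
    rw [h6]
    simp only [mul_sub, Finset.sum_sub_distrib, Finset.mul_sum]
    rw [Finset.sum_comm]
    have h7 : ∑ r, ∑ j ∈ Finset.range (d + 1), s j *
        (eval (Sum.elim z ξ) (x j r) * vec P (I r + 1) z ξ c) = 0 := by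
      refine Finset.sum_eq_zero fun r _ => ?_
      have : ∑ j ∈ Finset.range (d + 1), s j *
          (eval (Sum.elim z ξ) (x j r) * vec P (I r + 1) z ξ c)
          = (∑ j ∈ Finset.range (d + 1), s j * eval (Sum.elim z ξ) (x j r)) *
            vec P (I r + 1) z ξ c := by
        rw [Finset.sum_mul]
        exact Finset.sum_congr rfl fun j _ => by ring
      rw [this, h2, zero_mul]
    rw [h7, zero_sub, ← Finset.sum_neg_distrib]
    exact Finset.sum_congr rfl fun j _ => by ring

end Helper38.BallD
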