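import Mathlib

/-!
The space of relations between the coefficient vectors is not shift invariant if the curve
`∑ μ^i v_i` has no zero on the projective line.
-/

namespace Helper38.BallD

theorem exists_shift {ι : Type*} [Fintype ι] {d : ℕ} (v : ℕ → ι → ℂ) (hv0 : v 0 ≠ 0)
    (htop : v (d + 1) = 0) (hnz : ∀ μ : ℂ, ∑ i ∈ Finset.range (d + 1), μ ^ i • v i ≠ 0)
    (hd : v d ≠ 0) (hdep : ¬ LinearIndependent ℂ (fun i : Fin (d + 1) => v i)) :
    ∃ s : ℕ → ℂ, ∑ i ∈ Finset.range (d + 1), s i • v i = 0 ∧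
      ¬ ∃ κ : ℂ, ∑ i ∈ Finset.range (d + 1), s i • v (i + 1) = κ • v 0 := by
  classical
  by_contra hcon
  push Not at hcon
  obtain ⟨c0, hc0⟩ : ∃ c, v 0 c ≠ 0 := by
    by_contra h
    push Not at h
    exact hv0 (funext h)
  set T : (Fin (d + 1) → ℂ) →ₗ[ℂ] (ι → ℂ) := Fintype.linearCombination ℂ (fun i : Fin (d + 1) => v i)
    with hT
  set T' : (Fin (d + 1) → ℂ) →ₗ[ℂ] (ι → ℂ) :=
    Fintype.linearCombination ℂ (fun i : Fin (d + 1) => v (i + 1)) with hT'
  have hTa : ∀ s, T s = ∑ i, s i • v i := fun s => Fintype.linearCombination_apply ℂ _ s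
  have hTa' : ∀ s, T' s = ∑ i : Fin (d + 1), s i • v (i + 1) :=
    fun s => Fintype.linearCombination_apply ℂ _ s
  set κ : (Fin (d + 1) → ℂ) →ₗ[ℂ] ℂ := (v 0 c0)⁻¹ • (LinearMap.proj c0 ∘ₗ T') with hκ
  have hκa : ∀ s, κ s = (v 0 c0)⁻¹ * T' s c0 := fun s => rfl
  have hker : ∀ s, T s = 0 → T' s = κ s • v 0 := by
    intro s hs
    set s' : ℕ → ℂ := fun i => if h : i < d + 1 then s ⟨i, h⟩ else 0 with hs'
    have hs'i : ∀ i : Fin (d + 1), s' i = s i := by
      intro i
      simp only [hs', i.2, dif_pos]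
    have h1 : ∑ i ∈ Finset.range (d + 1), s' i • v i = 0 := by
      rw [Finset.sum_range, ← hs, hTa]
      exact Finset.sum_congr rfl fun i _ => by rw [hs'i]
    obtain ⟨k, hk⟩ := hcon s' h1
    rw [Finset.sum_range] at hk
    have h2 : T' s = k • v 0 := by
      rw [hTa', ← hk]
      exact Finset.sum_congr rfl fun i _ => by rw [hs'i]
    have h3 : κ s = k := by
      rw [hκa, h2, Pi.smul_apply, smul_eq_mul]
      field_simp
    rw [h2, h3]
  set τ : (Fin (d + 1) → ℂ) →ₗ[ℂ] (Fin (d + 1) → ℂ) :=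
    { toFun := fun s => Fin.cons (-κ s) (fun i : Fin d => s i.castSucc)
      map_add' := by
        intro s s'
        funext i
        refine Fin.cases ?_ (fun i => ?_) i
        · simp
          ring
        · simp
      map_smul' := by
        intro a s
        funext i
        refine Fin.cases ?_ (fun i => ?_) i
        · simp
        · simp } with hτ
  have hτ0 : ∀ s, τ s 0 = -κ s := fun s => rfl
  have hτs : ∀ s (i : Fin d), τ s i.succ = s i.castSucc := fun s i => rfl
  have hinv : ∀ s ∈ LinearMap.ker T, τ s ∈ LinearMap.ker T := by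
    intro s hs
    rw [LinearMap.mem_ker] at hs ⊢
    have h1 := hker s hs
    rw [hTa, Fin.sum_univ_succ, hτ0]
    simp only [hτs]
    rw [hTa', Fin.sum_univ_castSucc] at h1
    simp only [Fin.val_last, Fin.val_castSucc, htop, smul_zero, add_zero] at h1
    simp only [Fin.val_zero, Fin.val_succ, h1, neg_smul]
    abel
  have hnt : Nontrivial (LinearMap.ker T) := by
    rw [Submodule.nontrivial_iff_ne_bot]
    intro h0
    rw [LinearMap.ker_eq_bot] at h0
    exact hdep (linearIndependent_iff_injective_fintypeLinearCombination.2 h0)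
  obtain ⟨lam, hlam⟩ := Module.End.exists_eigenvalue (τ.restrict hinv)
  obtain ⟨s, hs⟩ := hlam.exists_hasEigenvector
  have hs1 : τ s = lam • (s : Fin (d + 1) → ℂ) := congrArg Subtype.val hs.apply_eq_smul
  have hs0 : (s : Fin (d + 1) → ℂ) ≠ 0 := fun h => hs.2 (Subtype.ext h)
  have hsT : T (s : Fin (d + 1) → ℂ) = 0 := s.2
  generalize (s : Fin (d + 1) → ℂ) = s at hs1 hs0 hsT
  have hrec : ∀ k (i : Fin (d + 1)), (i : ℕ) + k = d → s i = lam ^ k * s (Fin.last d) := by
    intro k
    induction k with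
    | zero =>
      intro i hi
      have : i = Fin.last d := Fin.ext (by simpa using hi)
      rw [this, pow_zero, one_mul]
    | succ k ih =>
      intro i hi
      have hid : (i : ℕ) < d := by omega
      have h1 := congrFun hs1 (Fin.succ ⟨i, hid⟩)
      rw [hτs, Pi.smul_apply, smul_eq_mul, ih (Fin.succ ⟨i, hid⟩) (by simp; omega)] at h1
      have h2 : (Fin.castSucc ⟨(i : ℕ), hid⟩ : Fin (d + 1)) = i := Fin.ext rfl
      rw [h2] at h1
      rw [h1, pow_succ]
      ring
  have hlast : s (Fin.last d) ≠ 0 := by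
    intro h0
    apply hs0
    funext i
    rw [hrec (d - i) i (by have := i.2; omega), h0, mul_zero]
    rfl
  have hsum : ∑ i ∈ Finset.range (d + 1), lam ^ (d - i) • v i = 0 := by
    rw [hTa] at hsT
    rw [Finset.sum_range]
    have h1 : (s (Fin.last d)) • ∑ i : Fin (d + 1), lam ^ (d - (i : ℕ)) • v i = 0 := by
      rw [Finset.smul_sum, ← hsT]
      refine Finset.sum_congr rfl fun i _ => ?_
      rw [hrec (d - i) i (by have := i.2; omega), smul_smul, mul_comm]
    exact (smul_eq_zero.1 h1).resolve_left hlast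
  by_cases hl : lam = 0
  · rw [Finset.sum_range_succ, Finset.sum_eq_zero] at hsum
    · simp only [Nat.sub_self, pow_zero, one_smul, zero_add] at hsum
      exact hd hsum
    · intro i hi
      rw [hl, zero_pow (by have := Finset.mem_range.1 hi; omega), zero_smul]
  · apply hnz lam⁻¹
    have h1 : (lam ^ d) • ∑ i ∈ Finset.range (d + 1), lam⁻¹ ^ i • v i = 0 := by
      rw [Finset.smul_sum, ← hsum]
      refine Finset.sum_congr rfl fun i hi => ?_
      rw [smul_smul]
      congr 1
      have hid : i ≤ d := Nat.lt_succ_iff.1 (Finset.mem_range.1 hi)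
      rw [inv_pow, ← div_eq_mul_inv, pow_sub₀ _ hl hid, div_eq_mul_inv]
    exact (smul_eq_zero.1 h1).resolve_left (pow_ne_zero _ hl)

end Helper38.BallD
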