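import Pool.Agent.Helper38.D.Line
import Pool.Agent.Helper38.D.Local

/-!
The relations coming from division by `ε̄ + ⟨x, w⟩` in a unitary frame.
-/

namespace Helper38.BallD

open MvPolynomial

/-- Polynomials in `x`, `y`. -/
abbrev RR (m : ℕ) := MvPolynomial (Fin m ⊕ Fin m) ℂ

/-- Restriction of polynomials in `(z, ξ)` to `z = ζ`, `ξ = ∑ x_i ξ_i`. -/
noncomputable def theta {n m : ℕ} (ζ : Fin n → ℂ) (ξ : Fin m → Fin n → ℂ) :
    R2 n →ₐ[ℂ] MvPolynomial (Fin m) ℂ :=
  aeval (Sum.elim (fun k => C (ζ k)) (fun k => ∑ i, C (ξ i k) * X i))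

lemma eval_theta {n m : ℕ} (ζ : Fin n → ℂ) (ξ : Fin m → Fin n → ℂ) (x : Fin m → ℂ) (g : R2 n) :
    eval x (theta ζ ξ g) = eval (Sum.elim ζ (fun k => ∑ i, ξ i k * x i)) g := by
  have h : (eval x).comp (theta ζ ξ).toRingHom
      = eval (Sum.elim ζ (fun k => ∑ i, ξ i k * x i)) := by
    apply ringHom_ext
    · intro a
      simp [theta]
    · intro i
      rcases i with i | i <;> simp [theta]
  exact congrArg (fun F => F g) h

lemma poly_funext {σ : Type*} {q : Polynomial (MvPolynomial σ ℂ)}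
    (h : ∀ (v : σ → ℂ) (t : ℂ), (q.map (eval v)).eval t = 0) : q = 0 := by
  apply Polynomial.ext
  intro i
  rw [Polynomial.coeff_zero]
  apply MvPolynomial.funext
  intro v
  have h1 : q.map (eval v) = 0 := Polynomial.funext fun t => by rw [h v t, Polynomial.eval_zero]
  rw [← Polynomial.coeff_map, h1, Polynomial.coeff_zero, map_zero]

/-- The polynomials `s_c \bar P_c ((1 + E) ζ̄ + L̄ y)`. -/
noncomputable def Be {n m : ℕ} {ι : Type*} (P : ι → MvPolynomial (Fin n) ℂ) (sg : ι → ℂ)
    (ζ : Fin n → ℂ) (ξ : Fin m → Fin n → ℂ) (c : ι) : Polynomial (MvPolynomial (Fin m) ℂ) :=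
  Polynomial.C (C (sg c)) * aeval (fun k => Polynomial.C (C (starRingEnd ℂ (ζ k))) *
    (1 + Polynomial.X) + Polynomial.C (∑ i, C (starRingEnd ℂ (ξ i k)) * X i))
      (map (starRingEnd ℂ) (P c))

lemma eval_Be {n m : ℕ} {ι : Type*} (P : ι → MvPolynomial (Fin n) ℂ) (sg : ι → ℂ)
    (ζ : Fin n → ℂ) (ξ : Fin m → Fin n → ℂ) (c : ι) (y : Fin m → ℂ) (E : ℂ) :
    ((Be P sg ζ ξ c).map (eval y)).eval E = sg c *
      eval (fun k => starRingEnd ℂ (ζ k) * (1 + E) + ∑ i, starRingEnd ℂ (ξ i k) * y i)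
        (map (starRingEnd ℂ) (P c)) := by
  unfold Be
  rw [Polynomial.map_mul, Polynomial.eval_mul, Polynomial.map_C, Polynomial.eval_C, eval_C]
  congr 1
  have h : ((Polynomial.evalRingHom E).comp (Polynomial.mapRingHom (eval y))).comp
      (aeval (fun k => Polynomial.C (C (starRingEnd ℂ (ζ k))) *
    (1 + Polynomial.X) + Polynomial.C (∑ i, C (starRingEnd ℂ (ξ i k)) * X i)) :
      MvPolynomial (Fin n) ℂ →ₐ[ℂ] Polynomial (MvPolynomial (Fin m) ℂ)).toRingHom
      = eval (fun k => starRingEnd ℂ (ζ k) * (1 + E) + ∑ i, starRingEnd ℂ (ξ i k) * y i) := by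
    apply ringHom_ext
    · intro a
      change Polynomial.eval E (Polynomial.map _ (aeval _ (C a))) = _
      rw [aeval_C, Polynomial.algebraMap_apply, Polynomial.map_C, Polynomial.eval_C, eval_C]
      exact eval_C _
    · intro k
      change Polynomial.eval E (Polynomial.map _ (aeval _ (X k))) = _
      rw [aeval_X, eval_X, Polynomial.map_add, Polynomial.eval_add, Polynomial.map_mul,
        Polynomial.eval_mul, Polynomial.map_C, Polynomial.eval_C, eval_C, Polynomial.map_C,
        Polynomial.eval_C, map_sum]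
      simp
  exact congrArg (fun F => F (map (starRingEnd ℂ) (P c))) h

theorem star {n m : ℕ} {ι : Type*} [Fintype ι] (P : ι → MvPolynomial (Fin n) ℂ) (sg : ι → ℂ)
    (hK : ∀ z ω : Fin n → ℂ, ∑ k, z k * ω k = 1 →
      ∑ c, sg c * eval z (P c) * eval ω (map (starRingEnd ℂ) (P c)) = 0)
    (ζ : Fin n → ℂ) (ξ : Fin m → Fin n → ℂ) (h1 : ∑ k, ζ k * starRingEnd ℂ (ζ k) = 1)
    (h2 : ∀ i, ∑ k, ζ k * starRingEnd ℂ (ξ i k) = 0)
    (h2' : ∀ i, ∑ k, ξ i k * starRingEnd ℂ (ζ k) = 0)
    (h3 : ∀ i j, ∑ k, ξ i k * starRingEnd ℂ (ξ j k) = if i = j then 1 else 0) :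
    ∃ (B0 B1 : ι → MvPolynomial (Fin m) ℂ) (H0 H1 : ℕ → MvPolynomial (Fin m ⊕ Fin m) ℂ),
      (∀ c y, eval y (B0 c) = sg c * starRingEnd ℂ
        (eval (fun k => ζ k + ∑ i, ξ i k * starRingEnd ℂ (y i)) (P c))) ∧
      (∑ c, rename Sum.inl (theta ζ ξ (G 0 (P c))) * rename Sum.inr (B0 c)
        = (0 : MvPolynomial (Fin m ⊕ Fin m) ℂ)) ∧
      (∀ i, ∑ c, rename Sum.inl (theta ζ ξ (G (i + 1) (P c))) * rename Sum.inr (B0 c)
        = bet m * H0 i) ∧
      (∑ c, rename Sum.inl (theta ζ ξ (G 0 (P c))) * rename Sum.inr (B1 c) = H0 0) ∧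
      (∀ i, ∑ c, rename Sum.inl (theta ζ ξ (G (i + 1) (P c))) * rename Sum.inr (B1 c)
        = H0 (i + 1) + bet m * H1 i) := by
  classical
  set ra : R2 n →+* RR m := (rename (Sum.inl : Fin m → Fin m ⊕ Fin m)).toRingHom.comp
    (theta ζ ξ).toRingHom with hra
  set At : ι → Polynomial (RR m) := fun c => (uline (P c)).map ra with hAt
  set j : MvPolynomial (Fin m) ℂ →+* Polynomial (RR m) :=
    Polynomial.C.comp (rename (Sum.inr : Fin m → Fin m ⊕ Fin m)).toRingHom with hj
  set K : Polynomial (Polynomial (RR m)) := ∑ c, Polynomial.C (At c) * (Be P sg ζ ξ c).map j with hKdef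
  set q0 : Polynomial (RR m) := -(Polynomial.C (bet m) * Polynomial.X) with hq0
  have hroot : K.eval q0 = 0 := by
    apply poly_funext
    intro v t
    set x : Fin m → ℂ := fun i => v (Sum.inl i) with hx
    set y : Fin m → ℂ := fun i => v (Sum.inr i) with hy
    have hv : v = Sum.elim x y := by
      funext i
      rcases i with i | i <;> rfl
    have eAt : ∀ c, ((At c).map (eval v)).eval t
        = eval (fun k => ζ k + t * ∑ i, ξ i k * x i) (P c) := by
      intro c
      rw [← line_eval, hAt]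
      simp only
      rw [Polynomial.map_map]
      unfold line
      congr 2
      apply ringHom_ext
      · intro a
        simp [hra]
      · intro i
        have h5 : ∀ g : R2 n, eval v (rename (Sum.inl : Fin m → Fin m ⊕ Fin m) (theta ζ ξ g))
            = eval (Sum.elim ζ (fun k => ∑ i, ξ i k * x i)) g := by
          intro g
          rw [eval_rename, ← eval_theta]
          rfl
        exact h5 (X i)
    have eBe : ∀ c, ((((Be P sg ζ ξ c).map j).eval q0).map (eval v)).eval t = sg c *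
        eval (fun k => starRingEnd ℂ (ζ k) * (1 + (-((∑ i, x i * y i) * t))) +
          ∑ i, starRingEnd ℂ (ξ i k) * y i) (map (starRingEnd ℂ) (P c)) := by
      intro c
      rw [← eval_Be]
      set Ev : Polynomial (RR m) →+* ℂ := (Polynomial.evalRingHom t).comp
        (Polynomial.mapRingHom (eval v)) with hEv
      have h6 : ∀ q : Polynomial (RR m), (q.map (eval v)).eval t = Ev q := fun q => rfl
      rw [h6, Polynomial.eval_map, Polynomial.hom_eval₂, Polynomial.eval_map]
      have h7 : Ev.comp j = eval y := by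
        apply ringHom_ext
        · intro a
          simp [hEv, hj]
        · intro i
          simp [hEv, hj, hy]
      have h8 : Ev q0 = -((∑ i, x i * y i) * t) := by
        rw [hq0, ← h6, Polynomial.map_neg, Polynomial.map_mul, Polynomial.map_C, Polynomial.map_X,
          Polynomial.eval_neg, Polynomial.eval_mul, Polynomial.eval_C, Polynomial.eval_X, hv,
          eval_bet]
      rw [h7, h8]
    rw [hKdef, Polynomial.eval_finsetSum, Polynomial.map_sum, Polynomial.eval_finsetSum]
    simp only [Polynomial.eval_mul, Polynomial.eval_C, Polynomial.map_mul]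
    simp only [eAt, eBe]
    have h9 := hK (fun k => ζ k + t * ∑ i, ξ i k * x i)
      (fun k => starRingEnd ℂ (ζ k) * (1 + (-((∑ i, x i * y i) * t))) +
          ∑ i, starRingEnd ℂ (ξ i k) * y i) (by
      have e1 : ∑ k, ζ k * ∑ i, starRingEnd ℂ (ξ i k) * y i = 0 := by
        simp only [Finset.mul_sum]
        rw [Finset.sum_comm]
        refine Finset.sum_eq_zero fun i _ => ?_
        have : ∑ k, ζ k * (starRingEnd ℂ (ξ i k) * y i)
            = (∑ k, ζ k * starRingEnd ℂ (ξ i k)) * y i := by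
          rw [Finset.sum_mul]
          exact Finset.sum_congr rfl fun k _ => by ring
        rw [this, h2, zero_mul]
      have e2 : ∑ k, (∑ i, ξ i k * x i) * starRingEnd ℂ (ζ k) = 0 := by
        simp only [Finset.sum_mul]
        rw [Finset.sum_comm]
        refine Finset.sum_eq_zero fun i _ => ?_
        have : ∑ k, ξ i k * x i * starRingEnd ℂ (ζ k)
            = (∑ k, ξ i k * starRingEnd ℂ (ζ k)) * x i := by
          rw [Finset.sum_mul]
          exact Finset.sum_congr rfl fun k _ => by ring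
        rw [this, h2', zero_mul]
      have e3 : ∑ k, (∑ i, ξ i k * x i) * (∑ j, starRingEnd ℂ (ξ j k) * y j)
          = ∑ i, x i * y i := by
        simp only [Finset.sum_mul_sum]
        rw [Finset.sum_comm]
        refine Finset.sum_congr rfl fun i _ => ?_
        rw [Finset.sum_comm]
        have : ∀ j, ∑ k, ξ i k * x i * (starRingEnd ℂ (ξ j k) * y j)
            = (if i = j then 1 else 0) * (x i * y j) := by
          intro j
          rw [← h3 i j, Finset.sum_mul]
          exact Finset.sum_congr rfl fun k _ => by ring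
        simp only [this]
        simp
      have e4 : ∀ s : ℂ, ∑ k, (ζ k + t * ∑ i, ξ i k * x i) * (starRingEnd ℂ (ζ k) * (1 + s) +
          ∑ i, starRingEnd ℂ (ξ i k) * y i)
            = (∑ k, ζ k * starRingEnd ℂ (ζ k)) * (1 + s) +
            ∑ k, ζ k * ∑ i, starRingEnd ℂ (ξ i k) * y i +
            t * (1 + s) * (∑ k, (∑ i, ξ i k * x i) * starRingEnd ℂ (ζ k)) +
            t * ∑ k, (∑ i, ξ i k * x i) * (∑ j, starRingEnd ℂ (ξ j k) * y j) := by
        intro s
        rw [Finset.sum_mul, Finset.mul_sum, Finset.mul_sum, ← Finset.sum_add_distrib,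
          ← Finset.sum_add_distrib, ← Finset.sum_add_distrib]
        exact Finset.sum_congr rfl fun k _ => by ring
      rw [e4, h1, e1, e2, e3]
      ring)
    rw [← h9]
    exact Finset.sum_congr rfl fun c _ => by ring
  obtain ⟨H, hH⟩ := (Polynomial.dvd_iff_isRoot (p := K) (a := q0)).2 hroot
  have hc0 : K.coeff 0 = Polynomial.C (bet m) * (H.coeff 0 * Polynomial.X) := by
    rw [hH, sub_mul, Polynomial.coeff_sub, Polynomial.coeff_X_mul_zero, Polynomial.coeff_C_mul, hq0]
    ring
  have hc1 : K.coeff 1 = H.coeff 0 + Polynomial.C (bet m) * (H.coeff 1 * Polynomial.X) := by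
    rw [hH, sub_mul, Polynomial.coeff_sub, Polynomial.coeff_X_mul, Polynomial.coeff_C_mul, hq0]
    ring
  have hKc : ∀ l i, (K.coeff l).coeff i = ∑ c, rename Sum.inl (theta ζ ξ (G i (P c))) *
      rename Sum.inr ((Be P sg ζ ξ c).coeff l) := by
    intro l i
    rw [hKdef, Polynomial.finsetSum_coeff, Polynomial.finsetSum_coeff]
    refine Finset.sum_congr rfl fun c _ => ?_
    rw [Polynomial.coeff_C_mul, Polynomial.coeff_map]
    have h10 : j ((Be P sg ζ ξ c).coeff l)
        = Polynomial.C (rename Sum.inr ((Be P sg ζ ξ c).coeff l)) := rfl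
    rw [h10, Polynomial.coeff_mul_C]
    congr 1
    exact Polynomial.coeff_map _ _
  refine ⟨fun c => (Be P sg ζ ξ c).coeff 0, fun c => (Be P sg ζ ξ c).coeff 1,
    fun i => (H.coeff 0).coeff i, fun i => (H.coeff 1).coeff i, ?_, ?_, ?_, ?_, ?_⟩
  · intro c y
    rw [← Polynomial.coeff_map, Polynomial.coeff_zero_eq_eval_zero, eval_Be]
    congr 1
    have h11 : (fun k => starRingEnd ℂ (ζ k) * (1 + 0) + ∑ i, starRingEnd ℂ (ξ i k) * y i)
        = fun k => starRingEnd ℂ (ζ k + ∑ i, ξ i k * starRingEnd ℂ (y i)) := by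
      funext k
      simp
    rw [h11, eval_map]
    have h12 := eval₂_comp_left (starRingEnd ℂ) (RingHom.id ℂ)
      (fun k => ζ k + ∑ i, ξ i k * starRingEnd ℂ (y i)) (P c)
    rw [RingHom.comp_id] at h12
    exact h12.symm
  · rw [← hKc, hc0, Polynomial.coeff_C_mul, Polynomial.coeff_mul_X_zero, mul_zero]
  · intro i
    rw [← hKc, hc0, Polynomial.coeff_C_mul, Polynomial.coeff_mul_X]
  · rw [← hKc, hc1, Polynomial.coeff_add, Polynomial.coeff_C_mul, Polynomial.coeff_mul_X_zero,
      mul_zero, add_zero]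
  · intro i
    rw [← hKc, hc1, Polynomial.coeff_add, Polynomial.coeff_C_mul, Polynomial.coeff_mul_X]

end Helper38.BallD
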