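import Pool.Agent.Helper38.D.Unitary
import Pool.Agent.Helper38.D.Star
import Pool.Agent.Helper38.D.Form
import Pool.Agent.Helper38.D.Rank
import Pool.Agent.Helper38.D.Shift
import Pool.Agent.Helper38.D.Coprime

/-!
The main inequality.
-/

namespace Helper38.BallD

open MvPolynomial

variable {n N : ℕ}

lemma eval_G_zero (p : MvPolynomial (Fin n) ℂ) (z ξ : Fin n → ℂ) :
    eval (Sum.elim z ξ) (G 0 p) = eval z p := by
  rw [← line_coeff, Polynomial.coeff_zero_eq_eval_zero, line_eval]
  congr 2
  funext k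
  ring

lemma pt_expand {ι : Type*} {P : ι → MvPolynomial (Fin n) ℂ} {d : ℕ}
    (hP : ∀ c, (P c).totalDegree ≤ d) (z ξ : Fin n → ℂ) (s : ℂ) :
    (fun c => eval (fun k => z k + s * ξ k) (P c))
      = ∑ i ∈ Finset.range (d + 1), s ^ i • vec P i z ξ := by
  funext c
  rw [eval_line_sum (hP c), Finset.sum_apply]
  exact Finset.sum_congr rfl fun i _ => by
    rw [Pi.smul_apply, smul_eq_mul, vec, mul_comm]

lemma coeff_zero_of_sum {d : ℕ} {a : ℕ → ℂ}
    (h : ∀ s : ℂ, ∑ i ∈ Finset.range (d + 1), s ^ i * a i = 0) :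
    ∀ i, i ≤ d → a i = 0 := by
  intro i hi
  set p : Polynomial ℂ := ∑ i ∈ Finset.range (d + 1), Polynomial.C (a i) * Polynomial.X ^ i with hp
  have hp0 : p = 0 := by
    apply Polynomial.funext
    intro s
    rw [hp, Polynomial.eval_finsetSum, Polynomial.eval_zero, ← h s]
    exact Finset.sum_congr rfl fun i _ => by
      rw [Polynomial.eval_mul, Polynomial.eval_C, Polynomial.eval_pow, Polynomial.eval_X, mul_comm]
  have h1 : p.coeff i = a i := by
    rw [hp, Polynomial.finsetSum_coeff]
    simp only [Polynomial.coeff_C_mul_X_pow]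
    rw [Finset.sum_ite_eq, if_pos (Finset.mem_range.2 (Nat.lt_succ_of_le hi))]
  rw [← h1, hp0, Polynomial.coeff_zero]

lemma form_sum_left {κ : Type*} (S : Finset κ) (u : κ → Fin (N + 1) → ℂ) (v : Fin (N + 1) → ℂ) :
    form (∑ i ∈ S, u i) v = ∑ i ∈ S, form (u i) v := by
  classical
  induction S using Finset.induction_on with
  | empty => simp [form_zero_left]
  | insert a S ha ih => rw [Finset.sum_insert ha, Finset.sum_insert ha, form_add_left, ih]

lemma Sp_perp {P : Fin (N + 1) → MvPolynomial (Fin n) ℂ} {d : ℕ}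
    (hP : ∀ c, (P c).totalDegree ≤ d) {z ξ : Fin n → ℂ} {w : Fin (N + 1) → ℂ}
    (h : ∀ s : ℂ, form (fun c => eval (fun k => z k + s * ξ k) (P c)) w = 0) :
    ∀ u ∈ Sp P d z ξ, form u w = 0 := by
  have h1 : ∀ i, i ≤ d → form (vec P i z ξ) w = 0 := by
    apply coeff_zero_of_sum
    intro s
    rw [← h s, pt_expand hP, form_sum_left]
    exact Finset.sum_congr rfl fun i _ => by rw [form_smul_left]
  intro u hu
  have h2 : Sp P d z ξ ≤ perp w := by
    unfold Sp
    rw [Submodule.span_le]
    rintro _ ⟨i, rfl⟩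
    exact h1 i (Nat.lt_succ_iff.1 i.2)
  exact h2 hu

lemma Sp_perp' {P : Fin (N + 1) → MvPolynomial (Fin n) ℂ} {d : ℕ}
    (hP : ∀ c, (P c).totalDegree ≤ d) {z ξ : Fin n → ℂ} {w : Fin (N + 1) → ℂ}
    (h : ∀ s : ℂ, form w (fun c => eval (fun k => z k + s * ξ k) (P c)) = 0) :
    ∀ u ∈ Sp P d z ξ, form w u = 0 := by
  intro u hu
  rw [form_conj u w, Sp_perp hP (w := w) (fun s => by rw [form_conj w, h s, map_zero]) u hu,
    map_zero]

lemma pderiv_theta {m : ℕ} (ζ : Fin n → ℂ) (ξ : Fin m → Fin n → ℂ) (i : Fin m) (g : R2 n) :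
    pderiv i (theta ζ ξ g) = ∑ k, C (ξ i k) * theta ζ ξ (pderiv (Sum.inr k) g) := by
  classical
  induction g using MvPolynomial.induction_on with
  | C a => simp [theta]
  | add p q hp hq =>
    simp only [map_add, hp, hq, mul_add, Finset.sum_add_distrib]
  | mul_X p j hp =>
    rw [map_mul, pderiv_mul, hp]
    simp only [pderiv_mul, map_add, map_mul, mul_add, Finset.sum_add_distrib, Finset.sum_mul]
    congr 1
    · exact Finset.sum_congr rfl fun k _ => by ring
    · have h1 : pderiv i (theta ζ ξ (X j)) = ∑ k, C (ξ i k) * theta ζ ξ (pderiv (Sum.inr k) (X j)) := by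
        rcases j with j | j
        · simp [theta]
        · have h2 : theta ζ ξ (X (Sum.inr j)) = ∑ i, C (ξ i j) * X i := by simp [theta]
          rw [h2, map_sum, Finset.sum_eq_single i, Finset.sum_eq_single j]
          · simp
          · intro k _ hk
            rw [pderiv_X_of_ne (by simpa using Ne.symm hk), map_zero, mul_zero]
          · simp
          · intro k _ hk
            rw [pderiv_C_mul, pderiv_X_of_ne hk, mul_zero]
          · simp
      rw [h1, Finset.mul_sum]
      exact Finset.sum_congr rfl fun k _ => by ring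

lemma theta_G_zero {m : ℕ} (ζ : Fin n → ℂ) (ξ : Fin m → Fin n → ℂ)
    (p : MvPolynomial (Fin n) ℂ) : theta ζ ξ (G 0 p) = C (eval ζ p) := by
  apply MvPolynomial.funext
  intro x
  rw [eval_theta, eval_G_zero, eval_C]

/-- The heart of the argument: in a good unitary frame, if the generic rank `a` is at most `d`,
it is at least `m + 2`. -/
theorem rank_big {m : ℕ} (hm : 2 ≤ m) {P : Fin (N + 1) → MvPolynomial (Fin n) ℂ} {d : ℕ}
    (hP : ∀ c, (P c).totalDegree ≤ d)
    (hK : ∀ z ω : Fin n → ℂ, ∑ k, z k * ω k = 1 →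
      ∑ c, sg N c * eval z (P c) * eval ω (map (starRingEnd ℂ) (P c)) = 0)
    {ζ : Fin n → ℂ} {ξ : Fin m → Fin n → ℂ} (h1 : ∑ k, ζ k * starRingEnd ℂ (ζ k) = 1)
    (h2 : ∀ i, ∑ k, ζ k * starRingEnd ℂ (ξ i k) = 0)
    (h2' : ∀ i, ∑ k, ξ i k * starRingEnd ℂ (ζ k) = 0)
    (h3 : ∀ i j, ∑ k, ξ i k * starRingEnd ℂ (ξ j k) = if i = j then 1 else 0)
    (hform : ∀ z w : Fin n → ℂ, ∑ k, z k * starRingEnd ℂ (w k) = 1 →
      form (fun c => eval z (P c)) (fun c => eval w (P c)) = 0)
    (i0 : Fin m) (hprop : ∀ κ : ℂ, vec P 1 ζ (ξ i0) ≠ κ • vec P 0 ζ (ξ i0))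
    (he : vec P 0 ζ (ξ i0) ≠ 0)
    {r : ℕ → R2 n} (hr : ∀ c, ∑ i ∈ Finset.range (d + 1), r i * G i (P c) = 0)
    (hu : ∀ κ : ℂ, (fun c => eval (Sum.elim ζ (ξ i0)) (shiftRel P d r c)) ≠ κ • vec P 0 ζ (ξ i0)) :
    ∃ w : Fin n → ℂ, m + 2 ≤ Module.finrank ℂ (Sp P d ζ w) := by
  classical
  obtain ⟨B0, B1, H0, H1, hB0, s00, s0, s10, s1⟩ := star P (sg N) hK ζ ξ h1 h2 h2' h3
  set e : Fin (N + 1) → ℂ := vec P 0 ζ (ξ i0) with hedef
  have hee : e = fun c => eval ζ (P c) := by
    funext c
    exact eval_G_zero _ _ _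
  have hnull : form e e = 0 := by
    rw [hee]
    exact hform ζ ζ h1
  set x1 : Fin m → ℂ := Pi.single i0 1 with hx1
  have hLx1 : (fun k => ∑ i, ξ i k * x1 i) = ξ i0 := by
    funext k
    rw [Finset.sum_eq_single i0]
    · simp [hx1]
    · intro j _ hj
      simp [hx1, hj]
    · simp
  have hLy : ∀ s : ℂ, (fun k => ζ k + ∑ i, ξ i k * starRingEnd ℂ ((Pi.single i0 s : Fin m → ℂ) i))
      = fun k => ζ k + starRingEnd ℂ s * ξ i0 k := by
    intro s
    funext k
    congr 1
    rw [Finset.sum_eq_single i0]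
    · simp [mul_comm]
    · intro j _ hj
      simp [hj]
    · simp
  have hpair : ∀ (u : Fin (N + 1) → ℂ) (s : ℂ), ∑ c, u c * eval (Pi.single i0 s : Fin m → ℂ) (B0 c)
      = form u (fun c => eval (fun k => ζ k + starRingEnd ℂ s * ξ i0 k) (P c)) := by
    intro u s
    unfold form
    refine Finset.sum_congr rfl fun c _ => ?_
    rw [hB0, hLy]
    ring
  have heline : ∀ s : ℂ, form (fun c => eval (fun k => ζ k + s * ξ i0 k) (P c)) e = 0 := by
    intro s
    rw [hee]
    apply hform
    have : ∑ k, (ζ k + s * ξ i0 k) * starRingEnd ℂ (ζ k)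
        = ∑ k, ζ k * starRingEnd ℂ (ζ k) + s * ∑ k, ξ i0 k * starRingEnd ℂ (ζ k) := by
      rw [Finset.mul_sum, ← Finset.sum_add_distrib]
      exact Finset.sum_congr rfl fun k _ => by ring
    rw [this, h1, h2']
    ring
  have hSe : ∀ u ∈ Sp P d ζ (ξ i0), form u e = 0 := Sp_perp hP heline
  have hfin := local_dim hm d (fun i c => theta ζ ξ (G i (P c))) e
    (fun c => by rw [theta_G_zero, hee]) he B0 B1 H0 H1 s00 s0 s10 s1
    (fun i => theta ζ ξ (r i))
    (fun c => by
      have := congrArg (theta ζ ξ) (hr c)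
      rw [map_sum, map_zero] at this
      simpa only [map_mul] using this)
    ?_ (fun c => theta ζ ξ (shiftRel P d r c))
    (fun c => by
      simp only [shiftRel, map_sum, map_mul]) ?_
  · obtain ⟨x, hx⟩ := hfin
    refine ⟨fun k => ∑ i, ξ i k * x i, hx _ ?_ ?_ ?_ ?_⟩
    · have : e = vec P 0 ζ (fun k => ∑ i, ξ i k * x i) := by
        rw [hee]
        funext c
        exact (eval_G_zero _ _ _).symm
      rw [this]
      exact vec_mem hP _ _ _
    · have : (fun c => eval x (theta ζ ξ (G 1 (P c)))) = vec P 1 ζ (fun k => ∑ i, ξ i k * x i) := by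
        funext c
        exact eval_theta _ _ _ _
      rw [this]
      exact vec_mem hP _ _ _
    · have : (fun c => eval x (theta ζ ξ (shiftRel P d r c)))
          = fun c => eval (Sum.elim ζ (fun k => ∑ i, ξ i k * x i)) (shiftRel P d r c) := by
        funext c
        exact eval_theta _ _ _ _
      rw [this]
      exact shiftRel_mem hP _ _ _
    · intro i
      have : (fun c => eval x (pderiv i (theta ζ ξ (shiftRel P d r c))))
          = ∑ k, ξ i k • fun c => eval (Sum.elim ζ (fun k => ∑ i, ξ i k * x i))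
            (pderiv (Sum.inr k) (shiftRel P d r c)) := by
        funext c
        rw [pderiv_theta, map_sum, Finset.sum_apply]
        refine Finset.sum_congr rfl fun k _ => ?_
        rw [map_mul, eval_C, eval_theta]
        rfl
      rw [this]
      exact Submodule.sum_mem _ fun k _ => Submodule.smul_mem _ _ (shiftRel_deriv_mem hP hr _ _ _)
  · -- `H(ζ, ζ) ≠ 0`
    intro hh
    set v1 := vec P 1 ζ (ξ i0) with hv1
    have hv1S : v1 ∈ Sp P d ζ (ξ i0) := vec_mem hP _ _ _
    have hH0 : ∀ x y : Fin m → ℂ, eval (Sum.elim x y) (H0 0) = eval (Sum.elim 0 y) (H0 0) := by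
      intro x y
      rw [← s10]
      simp only [map_sum, map_mul, theta_G_zero, rename_C, eval_C, eval_rename]
      rfl
    have hid : ∀ s : ℂ, form v1 (fun c => eval (fun k => ζ k + starRingEnd ℂ s * ξ i0 k) (P c))
        = s * eval (Sum.elim 0 (Pi.single i0 s : Fin m → ℂ)) (H0 0) := by
      intro s
      rw [← hpair]
      have h4 := congrArg (eval (Sum.elim x1 (Pi.single i0 s : Fin m → ℂ))) (s0 0)
      rw [map_sum, map_mul, eval_bet, hH0] at h4
      have h5 : ∑ i, x1 i * (Pi.single i0 s : Fin m → ℂ) i = s := by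
        rw [Finset.sum_eq_single i0]
        · simp [hx1]
        · intro j _ hj
          simp [hx1, hj]
        · simp
      rw [h5] at h4
      rw [← h4]
      refine Finset.sum_congr rfl fun c _ => ?_
      rw [map_mul, eval_rename, eval_rename]
      congr 1
      have h6 : (Sum.elim x1 (Pi.single i0 s : Fin m → ℂ)) ∘ Sum.inl = x1 := rfl
      rw [h6, eval_theta, hLx1]
      rfl
    have hexp : ∀ s : ℂ, form v1 (fun c => eval (fun k => ζ k + starRingEnd ℂ s * ξ i0 k) (P c))
        = ∑ i ∈ Finset.range (d + 1), s ^ i * form v1 (vec P i ζ (ξ i0)) := by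
      intro s
      rw [pt_expand hP, form_conj _ v1, form_sum_left, map_sum]
      refine Finset.sum_congr rfl fun i _ => ?_
      rw [form_smul_left, map_mul, ← form_conj, map_pow, Complex.conj_conj]
    have h10 : form v1 e = 0 := hSe v1 hv1S
    have h11 : form v1 v1 = 0 := by
      by_cases hd0 : d = 0
      · have : v1 = 0 := by
          funext c
          rw [hv1, vec, G_eq_zero (hP c) (by omega), map_zero]
          rfl
        rw [this, form_zero_left]
      obtain ⟨d', rfl⟩ : ∃ d', d = d' + 1 := ⟨d - 1, by omega⟩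
      have h12 : (fun s : ℂ => ∑ i ∈ Finset.range (d' + 1), s ^ i * form v1 (vec P (i + 1) ζ (ξ i0)))
          = fun s : ℂ => eval (Sum.elim 0 (Pi.single i0 s : Fin m → ℂ)) (H0 0) := by
        apply Continuous.ext_on (s := {(0 : ℂ)}ᶜ) (dense_compl_singleton 0)
        · fun_prop
        · have hc : Continuous fun s : ℂ => (Sum.elim 0 (Pi.single i0 s : Fin m → ℂ) :
              Fin m ⊕ Fin m → ℂ) := by
            rw [continuous_pi_iff]
            intro j
            rcases j with j | j
            · exact continuous_const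
            · by_cases hj : j = i0
              · subst hj
                simp only [Sum.elim_inr, Pi.single_eq_same]
                exact continuous_id
              · simp only [Sum.elim_inr, Pi.single_eq_of_ne hj]
                exact continuous_const
          exact (MvPolynomial.continuous_eval (H0 0)).comp hc
        · intro s hs
          have hs' : s ≠ 0 := hs
          apply mul_left_cancel₀ hs'
          simp only
          rw [← hid s, hexp s, Finset.mul_sum, Finset.sum_range_succ' _ (d' + 1)]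
          have h13 : form v1 (vec P 0 ζ (ξ i0)) = 0 := h10
          rw [h13, mul_zero, add_zero]
          exact Finset.sum_congr rfl fun i _ => by ring
      have h14 := congrFun h12 0
      rw [Finset.sum_range_succ', Finset.sum_eq_zero] at h14
      · simp only [pow_zero, one_mul, zero_add] at h14
        rw [h14]
        have h15 : (Sum.elim 0 (Pi.single i0 0 : Fin m → ℂ) : Fin m ⊕ Fin m → ℂ) = 0 := by
          funext j
          rcases j with j | j <;> simp
        rw [h15]
        exact hh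
      · intro i _
        rw [zero_pow (Nat.succ_ne_zero i), zero_mul]
    obtain ⟨κ, hκ⟩ := null_prop he hnull h10 h11
    exact hprop κ hκ
  · -- `Φ ≠ 0`
    intro hΦ
    set u : Fin (N + 1) → ℂ := fun c => eval (Sum.elim ζ (ξ i0)) (shiftRel P d r c) with hudef
    have huS : u ∈ Sp P d ζ (ξ i0) := shiftRel_mem hP _ _ _
    have h4 : ∀ s : ℂ, form u (fun c => eval (fun k => ζ k + s * ξ i0 k) (P c)) = 0 := by
      intro s
      have h5 := congrArg (eval (Sum.elim x1 (Pi.single i0 (starRingEnd ℂ s) : Fin m → ℂ))) hΦ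
      rw [map_sum, map_zero] at h5
      have h6 := hpair u (starRingEnd ℂ s)
      rw [Complex.conj_conj] at h6
      rw [← h6, ← h5]
      refine Finset.sum_congr rfl fun c _ => ?_
      rw [map_mul, eval_rename, eval_rename]
      congr 1
      have h7 : (Sum.elim x1 (Pi.single i0 (starRingEnd ℂ s) : Fin m → ℂ)) ∘ Sum.inl = x1 := rfl
      rw [h7, eval_theta, hLx1]
    have h5 := Sp_perp' hP h4 u huS
    have h6 : form u e = 0 := hSe u huS
    obtain ⟨κ, hκ⟩ := null_prop he hnull h6 h5
    exact hu κ hκ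

end Helper38.BallD
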