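import Pool.Agent.Helper38.D.Bound
import Pool.Agent.Helper38.BallUpper

/-!
The degree bound for proper rational maps between balls.
-/

namespace Helper38.BallD

open MvPolynomial Helper38.Ball Metric Topology

variable {n N : ℕ}

lemma eq_zero_of_nhds {q : MvPolynomial (Fin n) ℂ} {z0 : CSp n}
    (hU : {z : CSp n | ev q z = 0} ∈ 𝓝 z0) : q = 0 := by
  have hV : {x : Fin n → ℂ | MvPolynomial.eval x q = 0} ∈ 𝓝 (fun i => z0 i : Fin n → ℂ) := by
    have hc : Continuous fun x : Fin n → ℂ => (WithLp.toLp 2 x : CSp n) := by fun_prop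
    have := hc.continuousAt (x := (fun i => z0 i : Fin n → ℂ))
    have h3 := this.preimage_mem_nhds (t := {z : CSp n | ev q z = 0}) (by simpa using hU)
    filter_upwards [h3] with x hx
    simpa [ev] using hx
  obtain ⟨ε, hε, hball⟩ := Metric.mem_nhds_iff.1 hV
  refine MvPolynomial.funext_set (fun i => ball (z0 i) ε) (fun i => ?_) fun x hx => ?_
  · exact infinite_of_mem_nhds (z0 i) (ball_mem_nhds _ hε)
  · rw [map_zero]
    apply hball
    rw [ball_pi _ hε]
    exact hx

/-- Cancellation of a nonzero polynomial. -/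
lemma cancel_on_ball {g : MvPolynomial (Fin n) ℂ} (hg : g ≠ 0) {h : CSp n → ℂ}
    (hc : ∀ z ∈ ball (0 : CSp n) 1, ContinuousAt h z)
    (h0 : ∀ z ∈ ball (0 : CSp n) 1, ev g z * h z = 0) : ∀ z ∈ ball (0 : CSp n) 1, h z = 0 := by
  intro z0 hz0
  by_contra hne
  apply hg
  apply eq_zero_of_nhds (z0 := z0)
  filter_upwards [(hc z0 hz0).eventually_ne hne, isOpen_ball.mem_nhds hz0] with z h1 h2
  exact (mul_eq_zero.1 (h0 z h2)).resolve_right h1

/-- The family `(q, p_1, ..., p_N)`. -/
noncomputable def fam (p : Fin N → MvPolynomial (Fin n) ℂ) (q : MvPolynomial (Fin n) ℂ) :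
    Fin (N + 1) → MvPolynomial (Fin n) ℂ := Fin.cons q p

/-- The polarised identity. -/
lemma polarized {f : CSp n → CSp N} (hf : IsProper f) {p : Fin N → MvPolynomial (Fin n) ℂ}
    {q : MvPolynomial (Fin n) ℂ}
    (hpq : ∀ z ∈ ball (0 : CSp n) 1, ∀ j, ev q z * f z j = ev (p j) z)
    (z ω : Fin n → ℂ) (hz : ∑ k, z k * ω k = 1) :
    ∑ c, sg N c * eval z (fam p q c) * eval ω (map (starRingEnd ℂ) (fam p q c)) = 0 := by
  set F : MvPolynomial (Fin n ⊕ Fin n) ℂ := ∑ c, C (sg N c) * rename Sum.inl (fam p q c) *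
    rename Sum.inr (map (starRingEnd ℂ) (fam p q c)) with hF
  have hev : ∀ z ω : Fin n → ℂ, eval (Sum.elim z ω) F
      = ∑ c, sg N c * eval z (fam p q c) * eval ω (map (starRingEnd ℂ) (fam p q c)) := by
    intro z ω
    rw [hF, map_sum]
    refine Finset.sum_congr rfl fun c _ => ?_
    rw [map_mul, map_mul, eval_C, eval_rename, eval_rename]
    rfl
  rw [← hev]
  refine polarize F ?_ z ω hz
  intro ζ hζ
  rw [hev]
  have hconj : ∀ r : MvPolynomial (Fin n) ℂ,
      eval (fun i => starRingEnd ℂ (ζ i)) (map (starRingEnd ℂ) r)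
        = starRingEnd ℂ (eval ζ r) := by
    intro r
    rw [eval_map]
    have h12 := eval₂_comp_left (starRingEnd ℂ) (RingHom.id ℂ) ζ r
    rw [RingHom.comp_id] at h12
    exact h12.symm
  simp only [hconj]
  have hnorm : ‖(WithLp.toLp 2 ζ : CSp n)‖ = 1 := by
    have h1 : ‖(WithLp.toLp 2 ζ : CSp n)‖ ^ 2 = 1 := by
      rw [EuclideanSpace.norm_sq_eq]
      have h2 : ((∑ i, ‖ζ i‖ ^ 2 : ℝ) : ℂ) = 1 := by
        rw [← hζ, Complex.ofReal_sum]
        exact Finset.sum_congr rfl fun i _ => by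
          rw [Complex.mul_conj, Complex.normSq_eq_norm_sq]
      exact_mod_cast h2
    have h3 : 0 ≤ ‖(WithLp.toLp 2 ζ : CSp n)‖ := norm_nonneg _
    nlinarith
  have hb := boundary_identity hf hpq hnorm
  rw [Fin.sum_univ_succ]
  have e0 : fam p q 0 = q := rfl
  have es : ∀ j : Fin N, fam p q j.succ = p j := fun j => rfl
  have s0 : sg N 0 = -1 := rfl
  have ss : ∀ j : Fin N, sg N j.succ = 1 := fun j => rfl
  simp only [e0, es, s0, ss, one_mul]
  have hb' : ((‖ev q (WithLp.toLp 2 ζ)‖ ^ 2 : ℝ) : ℂ)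
      = ((∑ j, ‖ev (p j) (WithLp.toLp 2 ζ)‖ ^ 2 : ℝ) : ℂ) := by rw [hb]
  rw [Complex.ofReal_sum] at hb'
  have hm : ∀ r : MvPolynomial (Fin n) ℂ, eval ζ r * starRingEnd ℂ (eval ζ r)
      = ((‖ev r (WithLp.toLp 2 ζ)‖ ^ 2 : ℝ) : ℂ) := by
    intro r
    rw [Complex.mul_conj, Complex.normSq_eq_norm_sq]
    rfl
  simp only [hm]
  rw [← hb', neg_one_mul, neg_mul, hm]
  ring

lemma wronsk {a b : Polynomial ℂ} {t0 : ℂ}
    (h : b * Polynomial.derivative a = a * Polynomial.derivative b)
    (ha : a.eval t0 = 0) (hb : b.eval t0 ≠ 0) : a = 0 := by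
  by_contra ha0
  obtain ⟨a1, h1, h2⟩ := Polynomial.exists_eq_pow_rootMultiplicity_mul_and_not_dvd a ha0 t0
  have hk : 0 < a.rootMultiplicity t0 := (Polynomial.rootMultiplicity_pos ha0).2 ha
  obtain ⟨k, hk'⟩ : ∃ k, a.rootMultiplicity t0 = k + 1 := ⟨_, (Nat.succ_pred_eq_of_pos hk).symm⟩
  rw [hk'] at h1
  rw [Polynomial.dvd_iff_isRoot] at h2
  have hd : Polynomial.derivative a = (Polynomial.X - Polynomial.C t0) ^ k *
      (((k + 1 : ℕ) : Polynomial ℂ) * a1 +
        (Polynomial.X - Polynomial.C t0) * Polynomial.derivative a1) := by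
    rw [h1, Polynomial.derivative_mul, Polynomial.derivative_pow]
    simp only [Polynomial.derivative_sub, Polynomial.derivative_X, Polynomial.derivative_C,
      sub_zero, mul_one, Nat.add_sub_cancel]
    rw [map_natCast]
    ring
  have h3 : (Polynomial.X - Polynomial.C t0) ^ k * (b * (((k + 1 : ℕ) : Polynomial ℂ) * a1 +
        (Polynomial.X - Polynomial.C t0) * Polynomial.derivative a1) -
        (Polynomial.X - Polynomial.C t0) * a1 * Polynomial.derivative b) = 0 := by
    have h4 := h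
    rw [hd, h1] at h4
    linear_combination h4
  have h4 := (mul_eq_zero.1 h3).resolve_left (pow_ne_zero _ (Polynomial.X_sub_C_ne_zero t0))
  have h5 := congrArg (Polynomial.eval t0) h4
  simp only [Polynomial.eval_sub, Polynomial.eval_mul, Polynomial.eval_add, Polynomial.eval_X,
    Polynomial.eval_C, sub_self, zero_mul, add_zero, sub_zero, Polynomial.eval_zero,
    Polynomial.eval_natCast] at h5
  rcases mul_eq_zero.1 h5 with h6 | h6
  · exact hb h6
  · rcases mul_eq_zero.1 h6 with h7 | h7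
    · exact Nat.cast_ne_zero.2 (Nat.succ_ne_zero k) h7
    · exact h2 h7

/-- A polynomial vanishing on the unit sphere is zero. -/
lemma exists_sphere (hn : 0 < n) {q : MvPolynomial (Fin n) ℂ} (hq : q ≠ 0) :
    ∃ ζ : CSp n, ‖ζ‖ = 1 ∧ ev q ζ ≠ 0 := by
  by_contra hcon
  push Not at hcon
  have hpol := polarize (rename Sum.inl q : MvPolynomial (Fin n ⊕ Fin n) ℂ) (by
    intro ζ hζ
    rw [eval_rename]
    refine hcon (WithLp.toLp 2 ζ) ?_
    have h1 : ‖(WithLp.toLp 2 ζ : CSp n)‖ ^ 2 = 1 := by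
      rw [EuclideanSpace.norm_sq_eq]
      have h2 : ((∑ i, ‖ζ i‖ ^ 2 : ℝ) : ℂ) = 1 := by
        rw [← hζ, Complex.ofReal_sum]
        exact Finset.sum_congr rfl fun i _ => by
          rw [Complex.mul_conj, Complex.normSq_eq_norm_sq]
      exact_mod_cast h2
    have h3 : 0 ≤ ‖(WithLp.toLp 2 ζ : CSp n)‖ := norm_nonneg _
    nlinarith)
  have hX : q * X ⟨0, hn⟩ = 0 := by
    apply MvPolynomial.funext
    intro z
    rw [map_mul, eval_X, map_zero]
    by_cases hz : z ⟨0, hn⟩ = 0
    · rw [hz, mul_zero]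
    · have h1 := hpol z (Pi.single ⟨0, hn⟩ (z ⟨0, hn⟩)⁻¹) (by
        rw [Finset.sum_eq_single ⟨0, hn⟩]
        · rw [Pi.single_eq_same, mul_inv_cancel₀ hz]
        · intro j _ hj
          rw [Pi.single_eq_of_ne hj, mul_zero]
        · simp)
      rw [eval_rename] at h1
      have h2 : eval z q = 0 := h1
      rw [h2, zero_mul]
  exact (mul_ne_zero hq (X_ne_zero _)) hX

lemma line_zero_eval (p : MvPolynomial (Fin n) ℂ) (ζ : CSp n) (t : ℂ) :
    (line p 0 (fun k => ζ k)).eval t = ev p (t • ζ) := by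
  rw [line_eval]
  unfold ev
  congr 2
  funext k
  simp

/-- The map is not constant. -/
lemma nonconst (hn : 0 < n) {f : CSp n → CSp N} (hf : IsProper f)
    {p : Fin N → MvPolynomial (Fin n) ℂ} {q : MvPolynomial (Fin n) ℂ} (hq : q ≠ 0)
    (hpq : ∀ z ∈ ball (0 : CSp n) 1, ∀ j, ev q z * f z j = ev (p j) z) :
    ∃ c c', G 0 (fam p q c) * G 1 (fam p q c') - G 0 (fam p q c') * G 1 (fam p q c) ≠ 0 := by
  by_contra hcon
  push Not at hcon
  obtain ⟨ζ, hζ, hqζ⟩ := exists_sphere hn hq
  set b := line q 0 (fun k => ζ k) with hb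
  have hb1 : b.eval 1 ≠ 0 := by
    rw [hb, line_zero_eval, one_smul]
    exact hqζ
  have hb0 : b ≠ 0 := by
    intro h
    rw [h, Polynomial.eval_zero] at hb1
    exact hb1 rfl
  obtain ⟨t0, ht0, hbt0⟩ : ∃ t0 ∈ ball (0 : ℂ) 1, b.eval t0 ≠ 0 := by
    by_contra hcon2
    push Not at hcon2
    exact hb0 (Polynomial.eq_zero_of_infinite_isRoot _
      ((infinite_of_mem_nhds (0 : ℂ) (ball_mem_nhds _ one_pos)).mono hcon2))
  have ht0' : ‖t0‖ < 1 := by simpa using ht0
  have hmem : t0 • ζ ∈ ball (0 : CSp n) 1 := by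
    rw [mem_ball_zero_iff, norm_smul, hζ, mul_one]
    exact ht0'
  have hG0 : ∀ (r : MvPolynomial (Fin n) ℂ) (t : ℂ),
      eval (Sum.elim (fun k => 0 + t * ζ k) (fun k => ζ k)) (G 0 r)
        = (line r 0 (fun k => ζ k)).eval t := by
    intro r t
    rw [← line_coeff]
    have := line_shift r 0 (fun k => ζ k) t
    simp only [Pi.zero_apply] at this
    rw [this, Polynomial.taylor_coeff_zero]
  have hG1 : ∀ (r : MvPolynomial (Fin n) ℂ) (t : ℂ),
      eval (Sum.elim (fun k => 0 + t * ζ k) (fun k => ζ k)) (G 1 r)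
        = (Polynomial.derivative (line r 0 (fun k => ζ k))).eval t := by
    intro r t
    rw [← line_coeff]
    have := line_shift r 0 (fun k => ζ k) t
    simp only [Pi.zero_apply] at this
    rw [this, Polynomial.taylor_coeff_one]
  have hw : ∀ j, b * Polynomial.derivative (line (p j) 0 (fun k => ζ k))
      = line (p j) 0 (fun k => ζ k) * Polynomial.derivative b := by
    intro j
    apply Polynomial.funext
    intro t
    have h1 := congrArg (eval (Sum.elim (fun k => 0 + t * ζ k) (fun k => ζ k)))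
      (hcon 0 (Fin.succ j))
    rw [map_sub, map_mul, map_mul, map_zero] at h1
    have e0 : fam p q 0 = q := rfl
    have es : fam p q j.succ = p j := rfl
    rw [e0, es, hG0, hG1, hG0, hG1] at h1
    rw [Polynomial.eval_mul, Polynomial.eval_mul]
    linear_combination h1
  have hprop : ∀ j, ev (p j) ζ = f (t0 • ζ) j * ev q ζ := by
    intro j
    have h1 : line (p j) 0 (fun k => ζ k) - Polynomial.C (f (t0 • ζ) j) * b = 0 := by
      apply wronsk (b := b) (t0 := t0) _ _ hbt0
      · rw [Polynomial.derivative_sub, Polynomial.derivative_C_mul]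
        linear_combination hw j
      · rw [Polynomial.eval_sub, Polynomial.eval_mul, Polynomial.eval_C, hb, line_zero_eval,
          line_zero_eval, ← hpq _ hmem j]
        ring
    have h2 := congrArg (Polynomial.eval 1) h1
    rw [Polynomial.eval_sub, Polynomial.eval_mul, Polynomial.eval_C, hb, line_zero_eval,
      line_zero_eval, one_smul, Polynomial.eval_zero] at h2
    linear_combination h2
  have hbd := boundary_identity hf hpq hζ
  have h3 : ∑ j, ‖ev (p j) ζ‖ ^ 2 = ‖f (t0 • ζ)‖ ^ 2 * ‖ev q ζ‖ ^ 2 := by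
    rw [EuclideanSpace.norm_sq_eq, Finset.sum_mul]
    exact Finset.sum_congr rfl fun j _ => by rw [hprop, norm_mul, mul_pow]
  rw [h3] at hbd
  have h4 : 0 < ‖ev q ζ‖ ^ 2 := by
    have := norm_pos_iff.2 hqζ
    positivity
  have h5 : ‖f (t0 • ζ)‖ < 1 := by simpa using hf.maps _ hmem
  have h6 : ‖f (t0 • ζ)‖ ^ 2 < 1 := by
    have := norm_nonneg (f (t0 • ζ))
    nlinarith
  nlinarith

/-- Rational maps have finite degree. -/
lemma exists_degreeLE {f : CSp n → CSp N} (hf : IsRational f) : ∃ d, DegreeLE f d := by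
  classical
  choose p q hq hpq using hf
  set Q := ∏ j, q j with hQ
  set P : Fin N → MvPolynomial (Fin n) ℂ := fun j => p j * ∏ i ∈ Finset.univ.erase j, q i with hP
  refine ⟨Q.totalDegree + ∑ j, (P j).totalDegree, P, Q, Finset.prod_ne_zero_iff.2 fun j _ => hq j,
    Nat.le_add_right _ _, fun j => ?_, fun z hz j => ?_⟩
  · exact le_trans (Finset.single_le_sum (f := fun j => (P j).totalDegree)
      (fun _ _ => Nat.zero_le _) (Finset.mem_univ j)) (Nat.le_add_left _ _)
  · rw [hQ, hP, ← Finset.mul_prod_erase Finset.univ q (Finset.mem_univ j), map_mul, map_mul,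
      ← hpq j z hz]
    ring

/-- The degree bound: either `(n-1) d ≤ N - 1` or `N ≥ n (n-1) + 1`. -/
theorem degree_bound {m N : ℕ} (hm : 2 ≤ m) {f : CSp (m + 1) → CSp N} (hf : IsProper f)
    (hfr : IsRational f) (hN : N < 1 + m * (m + 1)) : DegreeLE f ((N - 1) / m) := by
  classical
  have hex := exists_degreeLE hfr
  set d := Nat.find hex with hd
  have hdspec : DegreeLE f d := Nat.find_spec hex
  have hdmin : ∀ d' < d, ¬ DegreeLE f d' := fun d' h => Nat.find_min hex h
  have hmono : ∀ {a b : ℕ}, a ≤ b → DegreeLE f a → DegreeLE f b := by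
    rintro a b hab ⟨p, q, hq, hqd, hpd, hpq⟩
    exact ⟨p, q, hq, hqd.trans hab, fun j => (hpd j).trans hab, hpq⟩
  suffices hle : d ≤ (N - 1) / m from hmono hle hdspec
  by_cases hd0 : d = 0
  · rw [hd0]; exact Nat.zero_le _
  obtain ⟨p, q, hq, hqd, hpd, hpq'⟩ := hdspec
  have hpq : ∀ z ∈ ball (0 : CSp (m + 1)) 1, ∀ j, ev q z * f z j = ev (p j) z := hpq'
  have hP : ∀ c, (fam p q c).totalDegree ≤ d := by
    intro c
    refine Fin.cases ?_ (fun j => ?_) c
    · exact hqd
    · exact hpd j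
  have htop : ∃ c, (fam p q c).totalDegree = d ∧ fam p q c ≠ 0 := by
    by_contra hcon
    push Not at hcon
    have hlt : ∀ c, (fam p q c).totalDegree ≤ d - 1 := by
      intro c
      have h1 := hP c
      by_contra h2
      have h3 : (fam p q c).totalDegree = d := by omega
      have h4 := hcon c h3
      rw [h4, totalDegree_zero] at h3
      omega
    exact hdmin (d - 1) (by omega) ⟨p, q, hq, hlt 0, fun j => hlt j.succ, hpq'⟩
  have hcop : ∀ g, (∀ c, g ∣ fam p q c) → g.totalDegree = 0 := by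
    intro g hg
    by_contra hgd
    choose P' hP' using hg
    have hg0 : g ≠ 0 := by
      rintro rfl
      simp at hgd
    have hdeg : ∀ c, (P' c).totalDegree ≤ d - 1 := by
      intro c
      by_cases h0 : P' c = 0
      · rw [h0, totalDegree_zero]; exact Nat.zero_le _
      · have h1 := hP c
        rw [hP' c, totalDegree_mul_of_isDomain hg0 h0] at h1
        omega
    have hq' : q = g * P' 0 := hP' 0
    have hp' : ∀ j, p j = g * P' j.succ := fun j => hP' j.succ
    refine hdmin (d - 1) (by omega) ⟨fun j => P' j.succ, P' 0, ?_, hdeg 0, fun j => hdeg _, ?_⟩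
    · intro h0
      rw [h0, mul_zero] at hq'
      exact hq hq'
    · intro z hz j
      have h1 := cancel_on_ball hg0 (h := fun z => ev (P' 0) z * f z j - ev (P' j.succ) z)
        (fun w hw => by
          have hc1 : ContinuousAt f w := (hf.holo w hw).continuousAt
          have hc2 : ContinuousAt (fun z => f z j) w := by
            have : Continuous fun v : CSp N => v j := by fun_prop
            exact this.continuousAt.comp hc1
          exact ((ev_continuous _).continuousAt.mul hc2).sub (ev_continuous _).continuousAt)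
        (fun w hw => by
          have h2 := hpq w hw j
          rw [hq', hp' j] at h2
          simp only [ev, map_mul] at h2 ⊢
          linear_combination h2) z hz
      exact sub_eq_zero.1 h1
  have hnc := nonconst (Nat.succ_pos m) hf hq hpq
  have hK := polarized hf hpq
  rcases bound hm hP htop hcop hK hnc with h | h
  · rw [Nat.le_div_iff_mul_le (by omega)]
    rw [mul_comm] at h
    omega
  · omega

end Helper38.BallD
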