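import Mathlib

/-!
A polynomial on `M_n(ℂ)` vanishing on the unitary group is zero.
-/

namespace Helper38.BallD

open MvPolynomial Matrix

lemma hasDerivAt_eval {σ : Type*} [Fintype σ] (p : MvPolynomial σ ℂ) {c : ℝ → σ → ℂ} {c' : σ → ℂ}
    {t : ℝ} (hc : ∀ i, HasDerivAt (fun s => c s i) (c' i) t) :
    HasDerivAt (fun s => eval (c s) p) (∑ i, eval (c t) (pderiv i p) * c' i) t := by
  classical
  induction p using MvPolynomial.induction_on with
  | C a => simpa using hasDerivAt_const t a
  | add p q hp hq =>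
    have h := hp.add hq
    simp only [map_add, add_mul, Finset.sum_add_distrib]
    exact h
  | mul_X p i hp =>
    have := hp.mul (hc i)
    simp only [map_mul, eval_X]
    refine this.congr_deriv ?_
    simp only [pderiv_mul, pderiv_X, map_add, map_mul, eval_X, add_mul, Finset.sum_add_distrib,
      Finset.sum_mul]
    congr 1
    · exact Finset.sum_congr rfl fun j _ => by ring
    · rw [Finset.sum_eq_single i]
      · simp
      · intro j _ hj
        simp [Ne.symm hj]
      · simp

lemma totalDegree_pderiv_le {σ : Type*} (p : MvPolynomial σ ℂ) (i : σ) {d : ℕ}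
    (hp : p.totalDegree ≤ d + 1) : (pderiv i p).totalDegree ≤ d := by
  classical
  refine Finset.sup_le fun m hm => ?_
  rw [mem_support_iff, coeff_pderiv] at hm
  have h1 : coeff (m + Finsupp.single i 1) p ≠ 0 := left_ne_zero_of_mul hm
  have h2 := le_totalDegree (mem_support_iff.2 h1)
  have h3 := h2.trans hp
  rw [Finsupp.sum_add_index' (fun _ => rfl) (fun _ _ _ => rfl)] at h3
  simp at h3
  simpa [Finsupp.sum] using h3

open scoped Matrix.Norms.L2Operator in
lemma skew_deriv {n : ℕ} (F : MvPolynomial (Fin n × Fin n) ℂ)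
    (h : ∀ g ∈ Matrix.unitaryGroup (Fin n) ℂ, eval (fun ij : Fin n × Fin n => g ij.1 ij.2) F = 0)
    {g : Matrix (Fin n) (Fin n) ℂ} (hg : g ∈ Matrix.unitaryGroup (Fin n) ℂ)
    {X : Matrix (Fin n) (Fin n) ℂ} (hX : X ∈ skewAdjoint (Matrix (Fin n) (Fin n) ℂ)) :
    ∑ ij : Fin n × Fin n, eval (fun ij : Fin n × Fin n => g ij.1 ij.2) (pderiv ij F) *
      (X * g) ij.1 ij.2 = 0 := by
  have h1 : HasDerivAt (fun t : ℝ => NormedSpace.exp (t • X) * g)
      (X * NormedSpace.exp ((0 : ℝ) • X) * g) 0 :=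
    (hasDerivAt_exp_smul_const' X (0 : ℝ)).mul_const g
  have h2 : ∀ ij : Fin n × Fin n, HasDerivAt
      (fun t : ℝ => (NormedSpace.exp (t • X) * g) ij.1 ij.2) ((X * g) ij.1 ij.2) 0 := by
    intro ij
    have h3 := (ContinuousLinearMap.hasFDerivAt
      (Matrix.entryLinearMap ℝ ℂ ij.1 ij.2 : Matrix (Fin n) (Fin n) ℂ →ₗ[ℝ] ℂ).toContinuousLinearMap
      (x := NormedSpace.exp ((0 : ℝ) • X) * g)).comp_hasDerivAt (0 : ℝ) h1
    rw [zero_smul, NormedSpace.exp_zero, mul_one] at h3
    exact h3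
  have h4 := hasDerivAt_eval F h2
  have h5 : (fun s : ℝ => eval (fun ij : Fin n × Fin n =>
      (NormedSpace.exp (s • X) * g) ij.1 ij.2) F) = fun _ => 0 := by
    funext s
    apply h
    refine mul_mem ?_ hg
    let _ : NormedAlgebra ℚ (Matrix (Fin n) (Fin n) ℂ) := NormedAlgebra.restrictScalars ℚ ℂ _
    apply NormedSpace.exp_mem_unitary_of_mem_skewAdjoint
    exact skewAdjoint.smul_mem s hX
  rw [h5] at h4
  have h6 := h4.unique (hasDerivAt_const (0 : ℝ) (0 : ℂ))
  simpa using h6

lemma pderiv_vanish {n : ℕ} (F : MvPolynomial (Fin n × Fin n) ℂ)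
    (h : ∀ g ∈ Matrix.unitaryGroup (Fin n) ℂ, eval (fun ij : Fin n × Fin n => g ij.1 ij.2) F = 0)
    (kl : Fin n × Fin n) :
    ∀ g ∈ Matrix.unitaryGroup (Fin n) ℂ,
      eval (fun ij : Fin n × Fin n => g ij.1 ij.2) (pderiv kl F) = 0 := by
  intro g hg
  set a : Fin n × Fin n → ℂ := fun ij => eval (fun ij : Fin n × Fin n => g ij.1 ij.2) (pderiv ij F)
    with ha
  set L : Matrix (Fin n) (Fin n) ℂ → ℂ := fun M => ∑ ij : Fin n × Fin n, a ij * M ij.1 ij.2 with hL
  have hLadd : ∀ M M', L (M + M') = L M + L M' := by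
    intro M M'
    simp only [hL, Matrix.add_apply, mul_add, Finset.sum_add_distrib]
  have hLsmul : ∀ (c : ℂ) M, L (c • M) = c * L M := by
    intro c M
    simp only [hL, Matrix.smul_apply, smul_eq_mul, Finset.mul_sum]
    exact Finset.sum_congr rfl fun ij _ => by ring
  have hskew : ∀ X ∈ skewAdjoint (Matrix (Fin n) (Fin n) ℂ), L (X * g) = 0 := fun X hX =>
    skew_deriv F h hg hX
  have hall : ∀ Y : Matrix (Fin n) (Fin n) ℂ, L (Y * g) = 0 := by
    intro Y
    have e : Y = (2⁻¹ : ℂ) • (Y - star Y) + (-(Complex.I / 2)) • (Complex.I • (Y + star Y)) := by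
      rw [smul_smul, smul_sub, smul_add]
      have : -(Complex.I / 2) * Complex.I = 2⁻¹ := by
        have := Complex.I_mul_I
        field_simp
        linear_combination -this
      rw [this]
      have h2 : (2⁻¹ : ℂ) • Y + (2⁻¹ : ℂ) • Y = Y := by
        rw [← add_smul]; norm_num
      calc Y = (2⁻¹ : ℂ) • Y + (2⁻¹ : ℂ) • Y := h2.symm
        _ = _ := by abel
    have h1 : Y - star Y ∈ skewAdjoint (Matrix (Fin n) (Fin n) ℂ) := by
      rw [skewAdjoint.mem_iff, star_sub, star_star, neg_sub]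
    have h2 : Complex.I • (Y + star Y) ∈ skewAdjoint (Matrix (Fin n) (Fin n) ℂ) := by
      rw [skewAdjoint.mem_iff, star_smul, star_add, star_star, add_comm (star Y) Y,
        ← neg_smul]
      congr 1
      simp
    rw [e, add_mul, smul_mul_assoc, smul_mul_assoc (-(Complex.I / 2)), hLadd, hLsmul, hLsmul,
      hskew _ h1, hskew _ h2]
    simp
  have hM : ∀ M : Matrix (Fin n) (Fin n) ℂ, L M = 0 := by
    intro M
    have := hall (M * star g)
    rwa [mul_assoc, (Matrix.mem_unitaryGroup_iff').1 hg, mul_one] at this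
  have := hM (Matrix.single kl.1 kl.2 1)
  simp only [hL] at this
  rw [Finset.sum_eq_single kl] at this
  · simpa using this
  · intro b _ hb
    rw [Matrix.single_apply, if_neg, mul_zero]
    rintro ⟨h1, h2⟩
    exact hb (Prod.ext h1.symm h2.symm)
  · simp

/-- A polynomial on `M_n(ℂ)` vanishing on the unitary group is zero. -/
theorem eq_zero_of_unitary {n : ℕ} (F : MvPolynomial (Fin n × Fin n) ℂ)
    (h : ∀ g ∈ Matrix.unitaryGroup (Fin n) ℂ, eval (fun ij : Fin n × Fin n => g ij.1 ij.2) F = 0) :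
    F = 0 := by
  suffices H : ∀ d : ℕ, ∀ F : MvPolynomial (Fin n × Fin n) ℂ, F.totalDegree ≤ d →
      (∀ g ∈ Matrix.unitaryGroup (Fin n) ℂ,
        eval (fun ij : Fin n × Fin n => g ij.1 ij.2) F = 0) → F = 0 from
    H F.totalDegree F le_rfl h
  intro d
  induction d with
  | zero =>
    intro F hF hv
    obtain ⟨c, rfl⟩ : ∃ c, F = C c := ⟨_, totalDegree_eq_zero_iff_eq_C.1 (by omega)⟩
    have := hv 1 (one_mem _)
    simpa using this
  | succ d ih =>
    intro F hF hv
    have h0 : ∀ kl, pderiv kl F = 0 := fun kl =>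
      ih _ (totalDegree_pderiv_le F kl hF) (pderiv_vanish F hv kl)
    have hconst : F = C (coeff 0 F) := by
      ext m
      rw [coeff_C]
      split_ifs with hm
      · rw [← hm]
      · obtain ⟨i, hi⟩ : ∃ i, m i ≠ 0 := by
          by_contra hcon
          push Not at hcon
          exact hm (Finsupp.ext fun i => (hcon i).symm)
        have h1 := congrArg (coeff (m - Finsupp.single i 1)) (h0 i)
        have h2 : m - Finsupp.single i 1 + Finsupp.single i 1 = m := by
          ext j
          by_cases hj : j = i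
          · subst hj
            simp
            omega
          · simp [Ne.symm hj]
        rw [coeff_pderiv, h2, coeff_zero] at h1
        exact (mul_eq_zero.1 h1).resolve_right (Nat.cast_add_one_ne_zero _)
    have := hv 1 (one_mem _)
    rw [hconst] at this ⊢
    simpa using this


/-- Homogenisation of the second group of variables by the determinant. -/
noncomputable def homog {k : ℕ} (F : MvPolynomial (Fin (k + 1) ⊕ Fin (k + 1)) ℂ) :
    MvPolynomial (Fin (k + 1) × Fin (k + 1)) ℂ :=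
  ∑ m ∈ F.support, C (coeff m F) * (∏ i, X (i, 0) ^ m (Sum.inl i)) *
    (∏ i, (adjugate (mvPolynomialX (Fin (k + 1)) (Fin (k + 1)) ℂ)) 0 i ^ m (Sum.inr i)) *
    (det (mvPolynomialX (Fin (k + 1)) (Fin (k + 1)) ℂ)) ^
      (F.totalDegree - ∑ i, m (Sum.inr i))

lemma eval_homog {k : ℕ} (F : MvPolynomial (Fin (k + 1) ⊕ Fin (k + 1)) ℂ)
    (A : Matrix (Fin (k + 1)) (Fin (k + 1)) ℂ) (ω : Fin (k + 1) → ℂ)
    (h : ∀ i, A.adjugate 0 i = A.det * ω i) :
    eval (fun ij : Fin (k + 1) × Fin (k + 1) => A ij.1 ij.2) (homog F)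
      = A.det ^ F.totalDegree * eval (Sum.elim (fun i => A i 0) ω) F := by
  have hA : (mvPolynomialX (Fin (k + 1)) (Fin (k + 1)) ℂ).map
      (eval fun ij : Fin (k + 1) × Fin (k + 1) => A ij.1 ij.2) = A := by
    ext i j
    simp
  have hdet : eval (fun ij : Fin (k + 1) × Fin (k + 1) => A ij.1 ij.2)
      (det (mvPolynomialX (Fin (k + 1)) (Fin (k + 1)) ℂ)) = A.det := by
    rw [RingHom.map_det]
    exact congrArg det hA
  have hadj : ∀ i, eval (fun ij : Fin (k + 1) × Fin (k + 1) => A ij.1 ij.2)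
      ((adjugate (mvPolynomialX (Fin (k + 1)) (Fin (k + 1)) ℂ)) 0 i) = A.det * ω i := by
    intro i
    rw [← h i]
    have := RingHom.map_adjugate (eval fun ij : Fin (k + 1) × Fin (k + 1) => A ij.1 ij.2)
      (mvPolynomialX (Fin (k + 1)) (Fin (k + 1)) ℂ)
    have h2 := congrFun (congrFun this 0) i
    simp only [RingHom.mapMatrix_apply, Matrix.map_apply] at h2
    rw [h2, hA]
  rw [eval_eq' (Sum.elim (fun i => A i 0) ω) F, Finset.mul_sum, homog, map_sum]
  refine Finset.sum_congr rfl fun m hm => ?_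
  rw [map_mul, map_mul, map_mul, map_prod, map_prod, map_pow, hdet]
  simp only [map_pow, eval_X, eval_C, hadj, mul_pow, Finset.prod_mul_distrib, Fintype.prod_sum_type,
    Sum.elim_inl, Sum.elim_inr]
  rw [Finset.prod_pow_eq_pow_sum]
  have hle : ∑ i, m (Sum.inr i) ≤ F.totalDegree := by
    have h1 := le_totalDegree hm
    refine le_trans ?_ h1
    rw [Finsupp.sum_fintype _ _ (fun _ => rfl), Fintype.sum_sum_type]
    exact Nat.le_add_left _ _
  have hp : A.det ^ F.totalDegree = A.det ^ (∑ i, m (Sum.inr i)) *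
      A.det ^ (F.totalDegree - ∑ i, m (Sum.inr i)) := by
    rw [← pow_add, Nat.add_sub_cancel' hle]
  rw [hp]
  ring

lemma exists_matrix {k : ℕ} {z ω : Fin (k + 1) → ℂ} (h : ∑ i, z i * ω i = 1) :
    ∃ A : Matrix (Fin (k + 1)) (Fin (k + 1)) ℂ, A.det ≠ 0 ∧ (∀ i, A i 0 = z i) ∧
      ∀ i, A.adjugate 0 i = A.det * ω i := by
  set f : (Fin (k + 1) → ℂ) →ₗ[ℂ] ℂ := ∑ i, (ω i) • (LinearMap.proj i) with hf
  have hfa : ∀ v, f v = ∑ i, v i * ω i := by
    intro v
    simp [hf, LinearMap.sum_apply, mul_comm]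
  have hfz : f z = 1 := by rw [hfa, h]
  have hrk : Module.finrank ℂ (LinearMap.ker f) = k := by
    have h1 := LinearMap.finrank_range_add_finrank_ker f
    have h2 : LinearMap.range f = ⊤ := by
      rw [LinearMap.range_eq_top]
      intro c
      exact ⟨c • z, by rw [map_smul, hfz]; simp⟩
    rw [h2, finrank_top, Module.finrank_self, Module.finrank_fin_fun] at h1
    omega
  let b := Module.finBasisOfFinrankEq ℂ (LinearMap.ker f) hrk
  set A : Matrix (Fin (k + 1)) (Fin (k + 1)) ℂ :=
    Matrix.of fun i j => (Fin.cons z (fun l => ((b l : LinearMap.ker f) : Fin (k + 1) → ℂ)) :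
      Fin (k + 1) → Fin (k + 1) → ℂ) j i with hA
  have hA0 : ∀ i, A i 0 = z i := fun i => by simp [hA]
  have hAs : ∀ i l, A i (Fin.succ l) = ((b l : LinearMap.ker f) : Fin (k + 1) → ℂ) i :=
    fun i l => by simp [hA]
  have hω : ω ᵥ* A = Pi.single 0 1 := by
    funext j
    refine Fin.cases ?_ (fun l => ?_) j
    · rw [Pi.single_eq_same]
      simp only [vecMul, dotProduct, hA0]
      rw [← h]
      exact Finset.sum_congr rfl fun i _ => mul_comm _ _
    · rw [Pi.single_eq_of_ne (Fin.succ_ne_zero l)]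
      simp only [vecMul, dotProduct, hAs]
      have := (b l).2
      rw [LinearMap.mem_ker, hfa] at this
      rw [← this]
      exact Finset.sum_congr rfl fun i _ => mul_comm _ _
  have hdet : A.det ≠ 0 := by
    intro h0
    obtain ⟨v, hv, hv0⟩ := Matrix.exists_mulVec_eq_zero_iff.2 h0
    have h1 : v 0 = 0 := by
      have h2 : ω ⬝ᵥ (A *ᵥ v) = 0 := by rw [hv0, dotProduct_zero]
      rw [dotProduct_mulVec, hω] at h2
      simpa using h2
    have h3 : ∑ l, v (Fin.succ l) • b l = 0 := by
      apply Subtype.ext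
      funext i
      have h4 := congrFun hv0 i
      simp only [mulVec, dotProduct, Fin.sum_univ_succ, h1, mul_zero, zero_add, hAs,
        Pi.zero_apply] at h4
      simp only [Submodule.coe_sum, Submodule.coe_smul, Finset.sum_apply, Pi.smul_apply,
        smul_eq_mul, ZeroMemClass.coe_zero, Pi.zero_apply]
      rw [← h4]
      exact Finset.sum_congr rfl fun l _ => mul_comm _ _
    have h5 := (Fintype.linearIndependent_iff.1 b.linearIndependent) _ h3
    apply hv
    funext j
    refine Fin.cases ?_ (fun l => ?_) j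
    · exact h1
    · exact h5 l
  refine ⟨A, hdet, hA0, fun i => ?_⟩
  have h6 : (ω ᵥ* A) ᵥ* A.adjugate = (Pi.single 0 1 : Fin (k + 1) → ℂ) ᵥ* A.adjugate := by
    rw [hω]
  rw [vecMul_vecMul, mul_adjugate, vecMul_smul, vecMul_one] at h6
  have h7 := congrFun h6 i
  rw [Matrix.single_one_vecMul] at h7
  simpa using h7.symm

/-- Polarisation. -/
theorem polarize {n : ℕ} (F : MvPolynomial (Fin n ⊕ Fin n) ℂ)
    (h : ∀ ζ : Fin n → ℂ, ∑ i, ζ i * starRingEnd ℂ (ζ i) = 1 →
      eval (Sum.elim ζ fun i => starRingEnd ℂ (ζ i)) F = 0)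
    (z ω : Fin n → ℂ) (hz : ∑ i, z i * ω i = 1) : eval (Sum.elim z ω) F = 0 := by
  obtain _ | k := n
  · simp at hz
  have h0 : homog F = 0 := by
    apply eq_zero_of_unitary
    intro g hg
    have hadj : g.adjugate = g.det • star g := by
      calc g.adjugate = star g * g * g.adjugate := by
            rw [(Matrix.mem_unitaryGroup_iff').1 hg, one_mul]
        _ = star g * (g * g.adjugate) := by rw [mul_assoc]
        _ = g.det • star g := by rw [mul_adjugate, Matrix.mul_smul, mul_one]
    rw [eval_homog F g (fun i => starRingEnd ℂ (g i 0)), h, mul_zero]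
    · have h1 := congrFun (congrFun ((Matrix.mem_unitaryGroup_iff').1 hg) 0) 0
      rw [Matrix.mul_apply, Matrix.one_apply_eq] at h1
      rw [← h1]
      refine Finset.sum_congr rfl fun i _ => ?_
      rw [mul_comm]
      rfl
    · intro i
      rw [hadj, Matrix.smul_apply, smul_eq_mul]
      rfl
  obtain ⟨A, hdet, hA0, hadj⟩ := exists_matrix hz
  have h1 := eval_homog F A ω hadj
  rw [h0, map_zero] at h1
  have h2 := (mul_eq_zero.1 h1.symm).resolve_left (pow_ne_zero _ hdet)
  have h3 : (fun i => A i 0) = z := funext hA0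
  rwa [h3] at h2

end Helper38.BallD
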